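import Mathlib

/-!
The derivatives of the logarithm of a real polynomial, as quotients of real polynomials and as power sums of the
complex roots.
-/

set_option autoImplicit false

namespace Pool.Agent.J6H80.ML

open Polynomial Finset

/-- the numerator of the derivative of order `m + 1` of `log p` -/
noncomputable def G (p : ℝ[X]) : ℕ → ℝ[X]
  | 0 => derivative p
  | m + 1 => p * derivative (G p m) - C ((m : ℝ) + 1) * derivative p * G p m

theorem natDegree_G (p : ℝ[X]) (m : ℕ) : (G p m).natDegree ≤ (m + 1) * p.natDegree := by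
  induction m with
  | zero =>
    rw [G]
    have := natDegree_derivative_le p
    omega
  | succ m ih =>
    rw [G]
    refine (natDegree_sub_le _ _).trans (max_le ?_ ?_)
    · refine natDegree_mul_le.trans ?_
      have := natDegree_derivative_le (G p m)
      have h2 : (m + 1 + 1) * p.natDegree = (m + 1) * p.natDegree + p.natDegree := by ring
      omega
    · refine natDegree_mul_le.trans ?_
      have h1 : (C ((m : ℝ) + 1) * derivative p).natDegree ≤ p.natDegree := by
        refine natDegree_mul_le.trans ?_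
        rw [natDegree_C, zero_add]
        have := natDegree_derivative_le p
        omega
      have h2 : (m + 1 + 1) * p.natDegree = (m + 1) * p.natDegree + p.natDegree := by ring
      omega

/-- the derivative of order `m + 1` of `log p` -/
noncomputable def dl (p : ℝ[X]) (m : ℕ) (x : ℝ) : ℝ := (G p m).eval x / p.eval x ^ (m + 1)

theorem hasDerivAt_dl (p : ℝ[X]) (m : ℕ) (x : ℝ) (hx : p.eval x ≠ 0) :
    HasDerivAt (dl p m) (dl p (m + 1) x) x := by
  have h1 := (G p m).hasDerivAt x
  have h2 := (p.hasDerivAt x).pow (m + 1)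
  have h3 := h1.div h2 (pow_ne_zero _ hx)
  unfold dl
  refine h3.congr_deriv ?_
  rw [G]
  simp only [eval_sub, eval_mul, eval_C, Pi.pow_apply, Nat.add_sub_cancel]
  push_cast
  field_simp
  ring

theorem hasDerivAt_log (p : ℝ[X]) (x : ℝ) (hx : p.eval x ≠ 0) :
    HasDerivAt (fun y => Real.log (p.eval y)) (dl p 0 x) x := by
  have h1 := (p.hasDerivAt x).log hx
  refine h1.congr_deriv ?_
  unfold dl
  rw [G]
  simp

/-- the roots as a family -/
def Fac {n : ℕ} (p : ℝ[X]) (z : Fin n → ℂ) : Prop :=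
  (p.map (algebraMap ℝ ℂ)).roots = Finset.univ.val.map z

theorem exists_fac (p : ℝ[X]) : ∃ z : Fin p.natDegree → ℂ, Fac p z := by
  have h1 : (p.map (algebraMap ℝ ℂ)).roots.toList.length = p.natDegree := by
    rw [Multiset.length_toList]
    have h2 := (IsAlgClosed.splits (p.map (algebraMap ℝ ℂ))).natDegree_eq_card_roots
    rw [← h2, natDegree_map]
  refine ⟨fun i => (p.map (algebraMap ℝ ℂ)).roots.toList.get (i.cast h1.symm), ?_⟩
  unfold Fac
  rw [Fin.univ_val_map]
  conv_lhs => rw [← Multiset.coe_toList (p.map (algebraMap ℝ ℂ)).roots]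
  congr 1
  apply List.ext_get
  · rw [List.length_ofFn, h1]
  · intro i h2 h3
    simp

theorem eval_eq {n : ℕ} {p : ℝ[X]} {z : Fin n → ℂ} (h : Fac p z) (w : ℂ) :
    (p.map (algebraMap ℝ ℂ)).eval w = p.leadingCoeff * ∏ i, (w - z i) := by
  have h1 := (IsAlgClosed.splits (p.map (algebraMap ℝ ℂ))).eq_prod_roots
  have h2 : (p.map (algebraMap ℝ ℂ)).eval w =
      ((p.map (algebraMap ℝ ℂ)).leadingCoeff) * (((p.map (algebraMap ℝ ℂ)).roots.map (fun a => w - a)).prod) := by
    conv_lhs => rw [h1]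
    rw [eval_mul, eval_C, eval_multiset_prod, Multiset.map_map]
    congr 3
    ext a
    simp
  rw [h2, h, Multiset.map_map, leadingCoeff_map]
  rfl

theorem eval_real (p : ℝ[X]) (x : ℝ) : (p.map (algebraMap ℝ ℂ)).eval (x : ℂ) = ((p.eval x : ℝ) : ℂ) := by
  have := eval_map_apply (algebraMap ℝ ℂ) x (p := p)
  simpa using this

theorem ne_root {n : ℕ} {p : ℝ[X]} {z : Fin n → ℂ} (h : Fac p z) {x : ℝ} (hx : p.eval x ≠ 0) (i : Fin n) :
    (x : ℂ) - z i ≠ 0 := by
  intro h0
  have h1 := eval_eq h (x : ℂ)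
  rw [eval_real, Finset.prod_eq_zero (Finset.mem_univ i) h0, mul_zero] at h1
  exact hx (by exact_mod_cast h1)

/-- the derivatives as power sums -/
theorem dl_eq {n : ℕ} {p : ℝ[X]} {z : Fin n → ℂ} (h : Fac p z) (m : ℕ) : ∀ x : ℝ, p.eval x ≠ 0 →
    ((dl p m x : ℝ) : ℂ) = (-1) ^ m * (m.factorial : ℂ) * ∑ i, (((x : ℂ) - z i) ^ (m + 1))⁻¹ := by
  induction m with
  | zero =>
    intro x hx
    have hx' : (p.map (algebraMap ℝ ℂ)).eval (x : ℂ) ≠ 0 := by
      rw [eval_real]
      exact_mod_cast hx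
    have h1 := (IsAlgClosed.splits (p.map (algebraMap ℝ ℂ))).eval_derivative_div_eval_of_ne_zero hx'
    rw [h, Multiset.map_map, eval_real, derivative_map, eval_real] at h1
    unfold dl
    rw [G]
    simp only [zero_add, pow_one, pow_zero, Nat.factorial_zero, Nat.cast_one, one_mul]
    push_cast
    rw [h1]
    simp only [Function.comp_def, one_div]
    rfl
  | succ m ih =>
    intro x hx
    have h1 : HasDerivAt (fun y : ℝ => ((dl p m y : ℝ) : ℂ)) ((dl p (m + 1) x : ℝ) : ℂ) x :=
      (hasDerivAt_dl p m x hx).ofReal_comp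
    have h2 : HasDerivAt (fun y : ℝ => (-1 : ℂ) ^ m * (m.factorial : ℂ) * ∑ i, (((y : ℂ) - z i) ^ (m + 1))⁻¹)
        ((-1) ^ m * (m.factorial : ℂ) * ∑ i, (-((m + 1 : ℕ) : ℂ) * (((x : ℂ) - z i) ^ (m + 2))⁻¹)) x := by
      apply HasDerivAt.const_mul
      apply HasDerivAt.fun_sum
      intro i _
      have hne := ne_root h hx i
      have h3 : HasDerivAt (fun w : ℂ => ((w - z i) ^ (m + 1))⁻¹)
          (-(((m + 1 : ℕ) : ℂ) * ((x : ℂ) - z i) ^ m * 1) / (((x : ℂ) - z i) ^ (m + 1)) ^ 2) (x : ℂ) := by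
        have h4 := (((hasDerivAt_id' (x : ℂ)).sub_const (z i)).fun_pow (m + 1)).fun_inv (pow_ne_zero _ hne)
        rw [Nat.add_sub_cancel] at h4
        exact h4
      have h5 := h3.comp_ofReal
      refine h5.congr_deriv ?_
      field_simp
      ring
    have h3 : (fun y : ℝ => ((dl p m y : ℝ) : ℂ)) =ᶠ[nhds x]
        (fun y : ℝ => (-1 : ℂ) ^ m * (m.factorial : ℂ) * ∑ i, (((y : ℂ) - z i) ^ (m + 1))⁻¹) := by
      have h4 : ∀ᶠ y in nhds x, p.eval y ≠ 0 := p.continuous.continuousAt.eventually_ne hx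
      filter_upwards [h4] with y hy
      exact ih y hy
    have h4 := (h2.congr_of_eventuallyEq h3).unique h1
    rw [← h4, ← mul_sum, Nat.factorial_succ, pow_succ]
    push_cast
    ring

end Pool.Agent.J6H80.ML
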