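import Mathlib

/-!
Powers of several complex numbers of modulus one which are simultaneously close to one, and splitting of sums.
-/

set_option autoImplicit false

namespace Pool.Agent.J6H80.ML

open Polynomial Finset

theorem norm_pow_sub (w : ℂ) (hw : ‖w‖ ≤ 1) (h : ℕ) : ‖w ^ h - 1‖ ≤ h * ‖w - 1‖ := by
  induction h with
  | zero => simp
  | succ h ih =>
    have e1 : w ^ (h + 1) - 1 = w ^ h * (w - 1) + (w ^ h - 1) := by ring
    rw [e1]
    have h1 : ‖w ^ h * (w - 1)‖ ≤ ‖w - 1‖ := by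
      rw [norm_mul, norm_pow]
      exact mul_le_of_le_one_left (norm_nonneg _) (pow_le_one₀ (norm_nonneg _) hw)
    have h2 := norm_add_le (w ^ h * (w - 1)) (w ^ h - 1)
    push_cast
    linarith

theorem single_pow (ε : ℝ) (hε : 0 < ε) : ∃ H : ℕ, 1 ≤ H ∧ ∀ ζ : ℂ, ‖ζ‖ = 1 →
    ∃ h : ℕ, 1 ≤ h ∧ h ≤ H ∧ ‖ζ ^ h - 1‖ ≤ ε := by
  refine ⟨⌈2 * Real.pi / ε⌉₊ + 1, by omega, ?_⟩
  intro ζ hζ
  set n : ℕ := ⌈2 * Real.pi / ε⌉₊ + 1 with hn
  obtain ⟨k, hk0, hk1, hk2⟩ := Real.exists_nat_abs_mul_sub_round_le (Complex.arg ζ / (2 * Real.pi)) (show 0 < n by omega)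
  refine ⟨k, hk0, hk1, ?_⟩
  have hpi := Real.pi_pos
  set j : ℤ := round ((k : ℝ) * (Complex.arg ζ / (2 * Real.pi))) with hj
  have h1 : ζ = Complex.exp (Complex.arg ζ * Complex.I) := by
    have := Complex.norm_mul_exp_arg_mul_I ζ
    rw [hζ] at this
    simpa using this.symm
  set y : ℝ := 2 * Real.pi * ((k : ℝ) * (Complex.arg ζ / (2 * Real.pi)) - j) with hy
  have h2 : ζ ^ k = Complex.exp (Complex.I * y) := by
    have e1 : Complex.I * (y : ℂ) = (k : ℂ) * (Complex.arg ζ * Complex.I) - j * (2 * Real.pi * Complex.I) := by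
      rw [hy]
      push_cast
      have : (Real.pi : ℂ) ≠ 0 := by exact_mod_cast hpi.ne'
      field_simp
    rw [e1, Complex.exp_sub, Complex.exp_int_mul_two_pi_mul_I, div_one, Complex.exp_nat_mul, ← h1]
  rw [h2]
  refine (Real.norm_exp_I_mul_ofReal_sub_one_le (x := y)).trans ?_
  rw [Real.norm_eq_abs, hy, abs_mul, abs_of_pos (by positivity : 0 < 2 * Real.pi)]
  have h3 : 2 * Real.pi / ε ≤ (n : ℝ) + 1 := by
    have := Nat.le_ceil (2 * Real.pi / ε)
    rw [hn]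
    push_cast
    linarith
  calc 2 * Real.pi * |(k : ℝ) * (Complex.arg ζ / (2 * Real.pi)) - j| ≤ 2 * Real.pi * (1 / ((n : ℝ) + 1)) := by
        gcongr
    _ = 2 * Real.pi / ((n : ℝ) + 1) := by ring
    _ ≤ ε := by
        rw [div_le_iff₀ (by positivity)]
        rw [div_le_iff₀ hε] at h3
        linarith

theorem many_pow (n : ℕ) : ∀ ε : ℝ, 0 < ε → ∃ H : ℕ, 1 ≤ H ∧ ∀ ζ : Fin n → ℂ, (∀ i, ‖ζ i‖ = 1) →
    ∃ h : ℕ, 1 ≤ h ∧ h ≤ H ∧ ∀ i, ‖ζ i ^ h - 1‖ ≤ ε := by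
  induction n with
  | zero =>
    intro ε _
    exact ⟨1, le_rfl, fun ζ _ => ⟨1, le_rfl, le_rfl, fun i => i.elim0⟩⟩
  | succ n ih =>
    intro ε hε
    obtain ⟨H1, hH1, h1⟩ := single_pow ε hε
    have hH1' : (0 : ℝ) < H1 := by exact_mod_cast hH1
    obtain ⟨H0, hH0, h0⟩ := ih (ε / H1) (by positivity)
    refine ⟨H0 * H1, Nat.mul_pos hH0 hH1, ?_⟩
    intro ζ hζ
    obtain ⟨m, hm1, hm2, hm3⟩ := h0 (fun i => ζ i.succ) (fun i => hζ _)
    obtain ⟨h, hh1, hh2, hh3⟩ := h1 (ζ 0 ^ m) (by rw [norm_pow, hζ, one_pow])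
    refine ⟨m * h, Nat.mul_pos hm1 hh1, Nat.mul_le_mul hm2 hh2, ?_⟩
    intro i
    rw [pow_mul]
    refine Fin.cases ?_ (fun j => ?_) i
    · exact hh3
    · have h3 := norm_pow_sub (ζ j.succ ^ m) (by rw [norm_pow, hζ, one_pow]) h
      refine h3.trans ?_
      have h4 := hm3 j
      calc (h : ℝ) * ‖ζ j.succ ^ m - 1‖ ≤ H1 * (ε / H1) := by
            gcongr
        _ = ε := by field_simp

theorem all_pow (K : ℕ) (ε : ℝ) (hε : 0 < ε) : ∃ H : ℕ, 1 ≤ H ∧ ∀ n ≤ K, ∀ ζ : Fin n → ℂ, (∀ i, ‖ζ i‖ = 1) →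
    ∃ h : ℕ, 1 ≤ h ∧ h ≤ H ∧ ∀ i, ‖ζ i ^ h - 1‖ ≤ ε := by
  induction K with
  | zero =>
    obtain ⟨H, hH, h⟩ := many_pow 0 ε hε
    refine ⟨H, hH, ?_⟩
    intro n hn
    obtain rfl : n = 0 := by omega
    exact h
  | succ K ih =>
    obtain ⟨H0, hH0, h0⟩ := ih
    obtain ⟨H1, hH1, h1⟩ := many_pow (K + 1) ε hε
    refine ⟨max H0 H1, le_max_of_le_left hH0, ?_⟩
    intro n hn ζ hζ
    rcases Nat.lt_or_ge n (K + 1) with h | h
    · obtain ⟨a, ha1, ha2, ha3⟩ := h0 n (by omega) ζ hζ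
      exact ⟨a, ha1, ha2.trans (le_max_left _ _), ha3⟩
    · obtain rfl : n = K + 1 := by omega
      obtain ⟨a, ha1, ha2, ha3⟩ := h1 ζ hζ
      exact ⟨a, ha1, ha2.trans (le_max_right _ _), ha3⟩

theorem one_add_pow_sub (x : ℂ) (m : ℕ) : ‖(1 + x) ^ m - 1‖ ≤ (1 + ‖x‖) ^ m - 1 := by
  induction m with
  | zero => simp
  | succ m ih =>
    have e1 : (1 + x) ^ (m + 1) - 1 = ((1 + x) ^ m - 1) * (1 + x) + x := by ring
    rw [e1]
    have h1 : ‖1 + x‖ ≤ 1 + ‖x‖ := by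
      refine (norm_add_le _ _).trans ?_
      simp
    have h2 : ‖((1 + x) ^ m - 1) * (1 + x)‖ ≤ ((1 + ‖x‖) ^ m - 1) * (1 + ‖x‖) := by
      rw [norm_mul]
      apply mul_le_mul ih h1 (norm_nonneg _)
      have : (1 : ℝ) ≤ (1 + ‖x‖) ^ m := one_le_pow₀ (by linarith [norm_nonneg x])
      linarith
    refine (norm_add_le _ _).trans ?_
    have e2 : (1 + ‖x‖) ^ (m + 1) - 1 = ((1 + ‖x‖) ^ m - 1) * (1 + ‖x‖) + ‖x‖ := by ring
    rw [e2]
    linarith

/-- lower bound near a good point -/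
theorem near_good (m : ℕ) (hm : 1 ≤ m) (a w : ℂ) (ha : a ≠ 0) (hg : ‖((a / ‖a‖) ^ m)⁻¹ - 1‖ ≤ 1 / 4)
    (hw : ‖w‖ ≤ ‖a‖ / (8 * m)) : (‖a‖ ^ m)⁻¹ / 3 ≤ (((a + w) ^ m)⁻¹).re := by
  have ha0 : 0 < ‖a‖ := norm_pos_iff.2 ha
  have hm' : (1 : ℝ) ≤ m := by exact_mod_cast hm
  have hac : (‖a‖ : ℂ) ≠ 0 := by exact_mod_cast ha0.ne'
  set v : ℂ := (1 + w / a) ^ m with hv
  have hx : ‖w / a‖ ≤ 1 / (8 * m) := by
    rw [norm_div, div_le_iff₀ ha0]
    calc ‖w‖ ≤ ‖a‖ / (8 * m) := hw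
      _ = _ := by ring
  have h1 : ‖v - 1‖ ≤ 1 / 4 := by
    refine (one_add_pow_sub _ _).trans ?_
    have h2 : (1 + ‖w / a‖) ^ m ≤ Real.exp (1 / 8) := by
      calc (1 + ‖w / a‖) ^ m ≤ (Real.exp (1 / (8 * m))) ^ m := by
            apply pow_le_pow_left₀ (by positivity)
            have := Real.add_one_le_exp (1 / (8 * (m : ℝ)))
            linarith
        _ = Real.exp (1 / 8) := by
            rw [← Real.exp_nat_mul]
            congr 1
            field_simp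
    have h3 : Real.exp (1 / 8) ≤ 5 / 4 := by
      have h4 := Real.add_one_le_exp (-(1 / 8 : ℝ))
      have h5 : Real.exp (1 / 8) * Real.exp (-(1 / 8)) = 1 := by rw [← Real.exp_add]; norm_num
      have h6 := Real.exp_pos (1 / 8)
      nlinarith
    linarith
  have hvn : 3 / 4 ≤ ‖v‖ := by
    have h2 : ‖(1 : ℂ)‖ ≤ ‖v‖ + ‖v - 1‖ := by
      calc ‖(1 : ℂ)‖ = ‖v - (v - 1)‖ := by congr 1; ring
        _ ≤ _ := norm_sub_le _ _
    rw [norm_one] at h2
    linarith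
  have hv0 : v ≠ 0 := by
    intro h
    rw [h, norm_zero] at hvn
    linarith
  have h2 : ‖v⁻¹ - 1‖ ≤ 1 / 3 := by
    have e1 : v⁻¹ - 1 = (1 - v) / v := by field_simp
    rw [e1, norm_div, norm_sub_rev, div_le_iff₀ (by linarith)]
    linarith
  set u : ℂ := ((a / ‖a‖) ^ m)⁻¹ with hu
  have e2 : ((a + w) ^ m)⁻¹ = ((‖a‖ ^ m)⁻¹ : ℝ) * (u * v⁻¹) := by
    have h3 : a + w = ‖a‖ * (a / ‖a‖) * (1 + w / a) := by field_simp
    rw [h3, mul_pow, mul_pow, hu, hv]
    push_cast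
    rw [mul_inv, mul_inv]
    ring
  rw [e2, Complex.re_ofReal_mul, div_eq_mul_inv]
  apply mul_le_mul_of_nonneg_left _ (by positivity)
  have e3 : u * v⁻¹ = 1 + ((u - 1) + (v⁻¹ - 1) + (u - 1) * (v⁻¹ - 1)) := by ring
  rw [e3, Complex.add_re, Complex.one_re]
  have h3 := Complex.abs_re_le_norm ((u - 1) + (v⁻¹ - 1) + (u - 1) * (v⁻¹ - 1))
  have h4 : ‖(u - 1) + (v⁻¹ - 1) + (u - 1) * (v⁻¹ - 1)‖ ≤ 1 / 4 + 1 / 3 + 1 / 4 * (1 / 3) := by
    refine (norm_add_le _ _).trans ?_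
    apply add_le_add ((norm_add_le _ _).trans (add_le_add hg h2))
    rw [norm_mul]
    exact mul_le_mul hg h2 (norm_nonneg _) (by norm_num)
  have h5 := neg_abs_le ((u - 1) + (v⁻¹ - 1) + (u - 1) * (v⁻¹ - 1)).re
  have h6 : (1 / 4 + 1 / 3 + 1 / 4 * (1 / 3) : ℝ) = 2 / 3 := by norm_num
  rw [h6] at h4
  have h7 : (3⁻¹ : ℝ) = 1 - 2 / 3 := by norm_num
  rw [h7]
  linarith

/-- constant sign on an interval without roots -/
theorem sign_const (g : ℝ[X]) (a b : ℝ) (h : ∀ x, a < x → x < b → g.eval x ≠ 0) :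
    (∀ x ∈ Set.Icc a b, 0 ≤ g.eval x) ∨ (∀ x ∈ Set.Icc a b, g.eval x ≤ 0) := by
  by_contra hcon
  rw [not_or] at hcon
  obtain ⟨h1, h2⟩ := hcon
  push Not at h1 h2
  obtain ⟨x, hx, hx0⟩ := h1
  obtain ⟨y, hy, hy0⟩ := h2
  have hivt : (0 : ℝ) ∈ (fun x => g.eval x) '' Set.uIcc x y := by
    apply intermediate_value_uIcc g.continuous.continuousOn
    rw [Set.mem_uIcc]
    left
    exact ⟨hx0.le, hy0.le⟩
  obtain ⟨w, hw, hw0⟩ := hivt
  simp only at hw0
  have hwx : w ≠ x := by rintro rfl; linarith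
  have hwy : w ≠ y := by rintro rfl; linarith
  rw [Set.mem_uIcc] at hw
  rcases hw with hw | hw
  · exact h w (lt_of_le_of_lt hx.1 (lt_of_le_of_ne hw.1 hwx.symm)) (lt_of_lt_of_le (lt_of_le_of_ne hw.2 hwy) hy.2) hw0
  · exact h w (lt_of_le_of_lt hy.1 (lt_of_le_of_ne hw.1 hwy.symm)) (lt_of_lt_of_le (lt_of_le_of_ne hw.2 hwx) hx.2) hw0

/-- from pieces of constant sign to a whole interval -/
theorem split_sign (g : ℝ[X]) (hg : g ≠ 0) (z : ℕ → ℂ) (hz : ∀ n, ‖z n‖ ≤ 1) (B : ℝ) (hB : 0 ≤ B) (i0 j0 : ℕ)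
    (H : ∀ i j : ℕ, i0 ≤ i → i ≤ j → j ≤ j0 → ((∀ x ∈ Set.Icc (i : ℝ) j, 0 ≤ g.eval x) ∨
      (∀ x ∈ Set.Icc (i : ℝ) j, g.eval x ≤ 0)) → ‖∑ n ∈ Ico i j, z n‖ ≤ B) (k : ℕ) :
    ∀ i j : ℕ, i0 ≤ i → i ≤ j → j ≤ j0 →
      (g.roots.toFinset.filter (fun r => (i : ℝ) < r ∧ r < j)).card ≤ k →
      ‖∑ n ∈ Ico i j, z n‖ ≤ (2 * k + 1) * (B + 1) := by
  classical
  induction k using Nat.strong_induction_on with
  | _ k ih =>
    intro i j hi hij hj hk
    by_cases hno : ∀ x, (i : ℝ) < x → x < j → g.eval x ≠ 0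
    · refine (H i j hi hij hj (sign_const g i j hno)).trans ?_
      have : (0 : ℝ) ≤ k := Nat.cast_nonneg k
      nlinarith
    · push Not at hno
      obtain ⟨r, hr1, hr2, hr0⟩ := hno
      set F := g.roots.toFinset.filter (fun r => (i : ℝ) < r ∧ r < j) with hF
      have hrF : r ∈ F := by
        rw [hF, mem_filter, Multiset.mem_toFinset, mem_roots hg]
        exact ⟨hr0, hr1, hr2⟩
      have hr00 : 0 ≤ r := (Nat.cast_nonneg i).trans hr1.le
      set a : ℕ := ⌊r⌋₊ with ha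
      have ha1 : (a : ℝ) ≤ r := Nat.floor_le hr00
      have ha2 : r < a + 1 := Nat.lt_floor_add_one r
      have hia : i ≤ a := Nat.le_floor hr1.le
      have haj : a < j := by
        have : (a : ℝ) < j := lt_of_le_of_lt ha1 hr2
        exact_mod_cast this
      set F1 := g.roots.toFinset.filter (fun r => (i : ℝ) < r ∧ r < a) with hF1
      set F2 := g.roots.toFinset.filter (fun r => ((a + 1 : ℕ) : ℝ) < r ∧ r < j) with hF2
      have haj' : (a : ℝ) < j := by exact_mod_cast haj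
      have hia' : (i : ℝ) ≤ a := by exact_mod_cast hia
      have hdis : Disjoint F1 F2 := by
        rw [Finset.disjoint_left]
        intro x h1 h2
        rw [hF1, mem_filter] at h1
        rw [hF2, mem_filter] at h2
        have := h2.2.1
        push_cast at this
        linarith [h1.2.2]
      have hsub : F1 ∪ F2 ⊆ F.erase r := by
        intro x hx
        rw [mem_union] at hx
        rw [mem_erase]
        rcases hx with hx | hx
        · rw [hF1, mem_filter] at hx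
          refine ⟨by linarith [hx.2.2] |> fun h : x < r => h.ne, ?_⟩
          rw [hF, mem_filter]
          exact ⟨hx.1, hx.2.1, by linarith [hx.2.2]⟩
        · rw [hF2, mem_filter] at hx
          have h3 := hx.2.1
          push_cast at h3
          refine ⟨by linarith |> fun h : r < x => h.ne', ?_⟩
          rw [hF, mem_filter]
          exact ⟨hx.1, by linarith, hx.2.2⟩
      have hcard : F1.card + F2.card + 1 ≤ k := by
        have h1 := card_le_card hsub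
        rw [card_union_of_disjoint hdis, card_erase_of_mem hrF] at h1
        have h2 : 0 < F.card := card_pos.2 ⟨r, hrF⟩
        omega
      have hL := ih F1.card (by omega) i a hi hia (by omega) le_rfl
      have hR := ih F2.card (by omega) (a + 1) j (by omega) haj hj le_rfl
      have e1 : ∑ n ∈ Ico i j, z n = ∑ n ∈ Ico i a, z n + z a + ∑ n ∈ Ico (a + 1) j, z n := by
        rw [← sum_Ico_consecutive z hia haj.le, sum_eq_sum_Ico_succ_bot haj]
        ring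
      rw [e1]
      have h3 := norm_add_le (∑ n ∈ Ico i a, z n + z a) (∑ n ∈ Ico (a + 1) j, z n)
      have h4 := norm_add_le (∑ n ∈ Ico i a, z n) (z a)
      have h5 := hz a
      have h6 : ((F1.card : ℝ) + F2.card + 1) ≤ k := by exact_mod_cast hcard
      nlinarith

/-- from short pieces to a whole interval -/
theorem split_len (z : ℕ → ℂ) (B : ℝ) (h : ℕ) (hh : 1 ≤ h) (L : ℕ)
    (H : ∀ i j : ℕ, i ≤ j → j ≤ L → j ≤ i + h → ‖∑ n ∈ Ico i j, z n‖ ≤ B) :
    ‖∑ n ∈ range L, z n‖ ≤ ((L : ℝ) / h + 1) * B := by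
  have hB : 0 ≤ B := (norm_nonneg _).trans (H 0 0 le_rfl (Nat.zero_le _) (Nat.zero_le _))
  have key : ∀ k : ℕ, ‖∑ n ∈ Ico 0 (min (k * h) L), z n‖ ≤ k * B := by
    intro k
    induction k with
    | zero => simp
    | succ k ih =>
      have h1 : min (k * h) L ≤ min ((k + 1) * h) L := by
        apply min_le_min_right
        nlinarith
      rw [← sum_Ico_consecutive z (Nat.zero_le _) h1]
      have h2 := H (min (k * h) L) (min ((k + 1) * h) L) h1 (min_le_right _ _) (by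
        have : (k + 1) * h = k * h + h := by ring
        omega)
      have h3 := norm_add_le (∑ n ∈ Ico 0 (min (k * h) L), z n)
        (∑ n ∈ Ico (min (k * h) L) (min ((k + 1) * h) L), z n)
      push_cast
      linarith
  have h1 := key (L / h + 1)
  have h2 : min ((L / h + 1) * h) L = L := by
    apply min_eq_right
    have := Nat.lt_div_mul_add (a := L) (b := h) (by omega)
    nlinarith
  rw [h2, Nat.Ico_zero_eq_range] at h1
  refine h1.trans ?_
  apply mul_le_mul_of_nonneg_right _ hB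
  push_cast
  have := Nat.cast_div_le (α := ℝ) (m := L) (n := h)
  linarith

theorem finmin (f : ℕ → ℝ) (hf : ∀ q, 0 < f q) (Q : ℕ) : ∃ η : ℝ, 0 < η ∧ ∀ q ≤ Q, η ≤ f q := by
  induction Q with
  | zero =>
    refine ⟨f 0, hf 0, ?_⟩
    intro q hq
    obtain rfl : q = 0 := by omega
    exact le_rfl
  | succ Q ih =>
    obtain ⟨η, hη, h⟩ := ih
    refine ⟨min η (f (Q + 1)), lt_min hη (hf _), ?_⟩
    intro q hq
    rcases Nat.lt_or_ge q (Q + 1) with h1 | h1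
    · exact (min_le_left _ _).trans (h q (by omega))
    · obtain rfl : q = Q + 1 := by omega
      exact min_le_right _ _

theorem finmax (f : ℕ → ℝ) (Q : ℕ) : ∃ C : ℝ, 1 ≤ C ∧ ∀ q ≤ Q, f q ≤ C := by
  induction Q with
  | zero =>
    refine ⟨max 1 (f 0), le_max_left _ _, ?_⟩
    intro q hq
    obtain rfl : q = 0 := by omega
    exact le_max_right _ _
  | succ Q ih =>
    obtain ⟨C, hC, h⟩ := ih
    refine ⟨max C (f (Q + 1)), le_max_of_le_left hC, ?_⟩
    intro q hq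
    rcases Nat.lt_or_ge q (Q + 1) with h1 | h1
    · exact (h q (by omega)).trans (le_max_left _ _)
    · obtain rfl : q = Q + 1 := by omega
      exact le_max_right _ _

end Pool.Agent.J6H80.ML
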