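import Pool.Agent.J6H80.ML.Piece

/-!
Sums of `p(d)^{it}` over an interval of integers.
-/

set_option autoImplicit false

namespace Pool.Agent.J6H80.ML

open Polynomial Finset
open Pool.Agent.H469R2.NK (e norm_e conj_e norm_sum_neg)

theorem kernel (K Q : ℕ) (hK : 1 ≤ K) (hQ : 1 ≤ Q) (B : ℝ) (hB : 1 ≤ B) :
    ∃ η : ℝ, 0 < η ∧ η ≤ 1 ∧ ∃ C : ℝ, 1 ≤ C ∧ ∀ (p : ℝ[X]) (z : Fin p.natDegree → ℂ), Fac p z →
      p.natDegree ≤ K → ∀ (N L : ℕ) (t : ℝ), 1 ≤ N → (L : ℝ) ≤ B * N →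
      (∀ x : ℝ, 0 ≤ x → x ≤ L → 0 < p.eval x) →
      (∀ x : ℝ, 0 ≤ x → x ≤ L → ∀ a, (N : ℝ) / B ≤ ‖(x : ℂ) - z a‖) →
      (∃ a, ∀ x : ℝ, 0 ≤ x → x ≤ L → ‖(x : ℂ) - z a‖ ≤ B * N) →
      (N : ℝ) ^ (1 / 2 : ℝ) ≤ |t| → |t| ≤ (N : ℝ) ^ Q →
      ‖∑ d ∈ range L, e (t / (2 * Real.pi) * Real.log (p.eval (d : ℝ)))‖ ≤ C * (N : ℝ) ^ (1 - η) := by
  classical
  obtain ⟨H, hH, hDir⟩ := all_pow K (1 / 4) (by norm_num)
  choose η hη hη1 C hC hpiece using fun q : ℕ => piece K hK B hB (q + 1) (by omega)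
  set m0 : ℕ := (Q + 1) * H with hm0
  have hm01 : 2 ≤ m0 := by rw [hm0]; nlinarith
  obtain ⟨η0, hη0, hηmin⟩ := finmin η hη m0
  obtain ⟨C0, hC0, hCmax⟩ := finmax C m0
  have hm0' : (1 : ℝ) ≤ m0 := by
    have : (2 : ℝ) ≤ m0 := by exact_mod_cast hm01
    linarith
  have hB0 : 0 < B := by linarith
  have hK' : (1 : ℝ) ≤ K := by exact_mod_cast hK
  set ρ : ℝ := 2 * ((m0 + 1) * K) + 1 with hρ
  have hρ1 : 1 ≤ ρ := by rw [hρ]; nlinarith
  set C1 : ℝ := 8 * B ^ 2 * m0 + (16 * B ^ 2 * m0 + 1) * (ρ * (C0 + 1)) with hC1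
  have hB2 : 1 ≤ B ^ 2 := one_le_pow₀ hB
  have hC11 : 1 ≤ C1 := by
    rw [hC1]
    have h1 : 1 ≤ 8 * B ^ 2 * m0 := by nlinarith
    have h2 : 0 ≤ (16 * B ^ 2 * m0 + 1) * (ρ * (C0 + 1)) := by positivity
    linarith
  refine ⟨min η0 1, lt_min hη0 one_pos, min_le_right _ _, C1, hC11, ?_⟩
  intro p z hz hp N L t hN hLN hpos hfar hnear ht1 ht2
  obtain ⟨a0, ha0⟩ := hnear
  have hN' : (1 : ℝ) ≤ N := by exact_mod_cast hN
  have hN0 : (0 : ℝ) < N := by linarith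
  set η' : ℝ := min η0 1 with hη'
  have hη'0 : η' ≤ η0 := min_le_left _ _
  have hη'1 : η' ≤ 1 := min_le_right _ _
  have hone : (1 : ℝ) ≤ (N : ℝ) ^ (1 - η') := Real.one_le_rpow hN' (by linarith)
  set f : ℕ → ℂ := fun d => e (t / (2 * Real.pi) * Real.log (p.eval (d : ℝ))) with hf
  have hfn : ∀ d, ‖f d‖ ≤ 1 := fun d => (norm_e _).le
  set h : ℕ := ⌊(N : ℝ) / (8 * B * m0)⌋₊ with hh
  have hhle : (h : ℝ) ≤ N / (8 * B * m0) := Nat.floor_le (by positivity)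
  rcases Nat.eq_zero_or_pos h with h0 | hpos'
  · -- short intervals
    have h1 : (N : ℝ) < 8 * B * m0 := by
      rw [hh, Nat.floor_eq_zero, div_lt_one (by positivity)] at h0
      exact h0
    have h2 : ‖∑ d ∈ range L, f d‖ ≤ L := by
      refine (norm_sum_le _ _).trans ?_
      calc ∑ d ∈ range L, ‖f d‖ ≤ ∑ d ∈ range L, (1 : ℝ) := sum_le_sum fun d _ => hfn d
        _ = L := by simp
    calc ‖∑ d ∈ range L, f d‖ ≤ B * N := h2.trans hLN
      _ ≤ B * (8 * B * m0) := by gcongr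
      _ = 8 * B ^ 2 * m0 * 1 := by ring
      _ ≤ C1 * (N : ℝ) ^ (1 - η') := by
          apply mul_le_mul _ hone (by norm_num) (by linarith)
          rw [hC1]
          have : 0 ≤ (16 * B ^ 2 * m0 + 1) * (ρ * (C0 + 1)) := by positivity
          linarith
  -- the general case
  have hh1 : (1 : ℝ) ≤ h := by exact_mod_cast hpos'
  set Bd : ℝ := ρ * (C0 * (N : ℝ) ^ (1 - η') + 1) with hBd
  have hsub : ∀ i j : ℕ, i ≤ j → j ≤ L → j ≤ i + h → ‖∑ d ∈ Ico i j, f d‖ ≤ Bd := by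
    intro i j hij hjL hjh
    have hjL' : (j : ℝ) ≤ L := by exact_mod_cast hjL
    have hij' : (i : ℝ) ≤ j := by exact_mod_cast hij
    have hi0 : (0 : ℝ) ≤ i := Nat.cast_nonneg i
    have hjh' : (j : ℝ) ≤ i + h := by exact_mod_cast hjh
    have hmem : ∀ x ∈ Set.Icc (i : ℝ) j, 0 ≤ x ∧ x ≤ L := fun x hx =>
      ⟨hi0.trans hx.1, hx.2.trans hjL'⟩
    have hia : ∀ a, (N : ℝ) / B ≤ ‖((i : ℝ) : ℂ) - z a‖ := hfar i hi0 (by linarith)
    have hNB : 0 < (N : ℝ) / B := by positivity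
    have hne : ∀ a, ((i : ℝ) : ℂ) - z a ≠ 0 := fun a => norm_pos_iff.1 (lt_of_lt_of_le hNB (hia a))
    -- the order of the derivative
    obtain ⟨k, hk1, hk2, hk3⟩ := hDir p.natDegree hp
      (fun a => ((((((i : ℝ) : ℂ) - z a) / ‖((i : ℝ) : ℂ) - z a‖) ^ (Q + 1)))⁻¹) (by
        intro a
        have := norm_pos_iff.2 (hne a)
        rw [norm_inv, norm_pow, norm_div, Complex.norm_real, Real.norm_eq_abs, abs_of_pos this,
          div_self this.ne', one_pow, inv_one])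
    obtain ⟨q, hq⟩ : ∃ q, (Q + 1) * k = q + 1 + 1 := by
      refine ⟨(Q + 1) * k - 2, ?_⟩
      have : 2 ≤ (Q + 1) * k := by nlinarith
      omega
    have hqm : q + 2 ≤ m0 := by
      rw [hm0]
      have : (Q + 1) * k ≤ (Q + 1) * H := Nat.mul_le_mul_left _ hk2
      omega
    have hQq : Q ≤ q + 1 := by
      have : Q + 1 ≤ (Q + 1) * k := Nat.le_mul_of_pos_right _ hk1
      omega
    have hqm' : ((q + 1 + 1 : ℕ) : ℝ) ≤ m0 := by exact_mod_cast hqm
    have hgood : ∀ a, ∀ x ∈ Set.Icc (i : ℝ) j,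
        (‖((i : ℝ) : ℂ) - z a‖ ^ (q + 1 + 1))⁻¹ / 3 ≤ ((((x : ℂ) - z a) ^ (q + 1 + 1))⁻¹).re := by
      intro a x hx
      have e1 : (x : ℂ) - z a = (((i : ℝ) : ℂ) - z a) + ((x - i : ℝ) : ℂ) := by push_cast; ring
      rw [e1]
      apply near_good (q + 1 + 1) (by omega) _ _ (hne a)
      · have h1 := hk3 a
        rw [inv_pow, ← pow_mul, hq] at h1
        exact h1
      · rw [Complex.norm_real, Real.norm_eq_abs, abs_of_nonneg (by linarith [hx.1])]
        calc x - i ≤ h := by linarith [hx.2]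
          _ ≤ N / (8 * B * m0) := hhle
          _ = (N / B) / (8 * m0) := by field_simp
          _ ≤ ‖((i : ℝ) : ℂ) - z a‖ / (8 * ((q + 1 + 1 : ℕ) : ℝ)) := by
              apply div_le_div₀ (norm_nonneg _) (hia a) (by positivity)
              gcongr
    have hlow : ∀ x ∈ Set.Icc (i : ℝ) j,
        ((B * N) ^ (q + 1 + 1))⁻¹ / 3 ≤ (∑ a, (((x : ℂ) - z a) ^ (q + 1 + 1))⁻¹).re := by
      intro x hx
      rw [Complex.re_sum]
      have h1 : ∀ a ∈ (univ : Finset (Fin p.natDegree)), 0 ≤ ((((x : ℂ) - z a) ^ (q + 1 + 1))⁻¹).re := by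
        intro a _
        exact le_trans (by positivity) (hgood a x hx)
      refine le_trans ?_ (single_le_sum h1 (mem_univ a0))
      refine le_trans ?_ (hgood a0 x hx)
      have h2 := norm_pos_iff.2 (hne a0)
      have h3 := ha0 i hi0 (by linarith)
      gcongr
    have hlen : h ≤ N := by
      have : (h : ℝ) ≤ N := by
        refine hhle.trans (div_le_self hN0.le ?_)
        nlinarith
      exact_mod_cast this
    have hpc : ∀ i' j' : ℕ, i ≤ i' → i' ≤ j' → j' ≤ j →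
        ((∀ x ∈ Set.Icc (i' : ℝ) j', 0 ≤ (G p (q + 1 + 1)).eval x) ∨
          (∀ x ∈ Set.Icc (i' : ℝ) j', (G p (q + 1 + 1)).eval x ≤ 0)) →
        ‖∑ d ∈ Ico i' j', f d‖ ≤ C0 * (N : ℝ) ^ (1 - η') := by
      intro i' j' hi' hij'' hj' hsg
      have hsubset : ∀ x ∈ Set.Icc (i' : ℝ) j', x ∈ Set.Icc (i : ℝ) j := by
        intro x hx
        have h1 : (i : ℝ) ≤ i' := by exact_mod_cast hi'
        have h2 : (j' : ℝ) ≤ j := by exact_mod_cast hj'
        exact ⟨h1.trans hx.1, hx.2.trans h2⟩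
      have h1 := hpiece q p p.natDegree z hz hp N i' j' t hN hij'' (by omega)
        (fun x hx => hpos x (hmem x (hsubset x hx)).1 (hmem x (hsubset x hx)).2)
        (fun x hx => hlow x (hsubset x hx))
        (fun x hx => hfar x (hmem x (hsubset x hx)).1 (hmem x (hsubset x hx)).2) hsg ht1
        (ht2.trans (pow_le_pow_right₀ hN' hQq))
      refine h1.trans ?_
      have h2 : η' ≤ η q := hη'0.trans (hηmin q (by omega))
      have h3 : C q ≤ C0 := hCmax q (by omega)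
      have h4 : (N : ℝ) ^ (1 - η q) ≤ (N : ℝ) ^ (1 - η') :=
        Real.rpow_le_rpow_of_exponent_le hN' (by linarith)
      have h5 : 0 ≤ C q := by linarith [hC q]
      gcongr
    have hCN : 0 ≤ C0 * (N : ℝ) ^ (1 - η') := by positivity
    by_cases hG : G p (q + 1 + 1) = 0
    · refine (hpc i j le_rfl hij le_rfl (Or.inl (by intro x _; rw [hG]; simp))).trans ?_
      rw [hBd]
      nlinarith
    · have h1 := split_sign (G p (q + 1 + 1)) hG f hfn _ hCN i j hpc ((m0 + 1) * K) i j le_rfl hij le_rfl (by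
        refine (card_filter_le _ _).trans ((Multiset.toFinset_card_le _).trans ((card_roots' _).trans ?_))
        refine (natDegree_G p _).trans ?_
        exact Nat.mul_le_mul (by omega) hp)
      refine h1.trans (le_of_eq ?_)
      rw [hBd, hρ]
      push_cast
      ring
  have hfin := split_len f Bd h hpos' L hsub
  refine hfin.trans ?_
  have hnum : (L : ℝ) / h + 1 ≤ 16 * B ^ 2 * m0 + 1 := by
    have h1 : (N : ℝ) / (16 * B * m0) ≤ h := by
      have h2 : (N : ℝ) / (8 * B * m0) < h + 1 := Nat.lt_floor_add_one _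
      have h3 : (N : ℝ) / (16 * B * m0) = N / (8 * B * m0) / 2 := by
        field_simp
        norm_num
      rw [h3]
      linarith
    have h2 : (L : ℝ) / h ≤ 16 * B ^ 2 * m0 := by
      rw [div_le_iff₀ (by linarith)]
      calc (L : ℝ) ≤ B * N := hLN
        _ = 16 * B ^ 2 * m0 * (N / (16 * B * m0)) := by field_simp
        _ ≤ _ := by gcongr
    linarith
  have hBd1 : Bd ≤ ρ * (C0 + 1) * (N : ℝ) ^ (1 - η') := by
    rw [hBd]
    calc ρ * (C0 * (N : ℝ) ^ (1 - η') + 1) ≤ ρ * (C0 * (N : ℝ) ^ (1 - η') + (N : ℝ) ^ (1 - η')) := by gcongr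
      _ = _ := by ring
  have hBd0 : 0 ≤ Bd := by rw [hBd]; positivity
  calc ((L : ℝ) / h + 1) * Bd ≤ (16 * B ^ 2 * m0 + 1) * (ρ * (C0 + 1) * (N : ℝ) ^ (1 - η')) := by
        gcongr
    _ ≤ C1 * (N : ℝ) ^ (1 - η') := by
        rw [hC1]
        have h1 : 0 ≤ 8 * B ^ 2 * m0 * (N : ℝ) ^ (1 - η') := by positivity
        nlinarith

end Pool.Agent.J6H80.ML
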