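import Pool.Agent.J6H80.ML.Ker
import Pool.Agent.R516.MPD

/-!
The kernel of an arc, and the mean value over a well-spaced set for coefficients supported on one arc.
-/

set_option autoImplicit false

namespace Pool.Agent.J6H80.ML

open Polynomial Finset
open Pool.Agent.H469R2.NK (e norm_e)
open Pool.Agent.TH705.DL (ph ph_norm ph_eq Sep)
open Pool.Agent.R516.MS (KW lsW)
open Pool.Agent.R327.SI (lg_pow)

theorem ph_e (t : ℝ) (n : ℕ) : ph t n = e (t / (2 * Real.pi) * Real.log n) := by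
  rw [ph_eq]
  unfold e
  congr 2
  have := Real.pi_pos
  push_cast
  field_simp

/-- an arc: a polynomial with integer values in `[M, 2M]` at `0, 1, …, L - 1` which is not nearly constant -/
structure Cv (M K : ℕ) (μ c : ℝ) (p : ℝ[X]) (L : ℕ) : Prop where
  deg : p.natDegree ≤ K
  long : (M : ℝ) ^ μ ≤ 2 * L
  val : ∀ d < L, ∃ n : ℕ, (n : ℝ) = p.eval (d : ℝ) ∧ M ≤ n ∧ n ≤ 2 * M
  var : ∃ i < L, ∃ j < L, (1 + (M : ℝ) ^ (-c) / 2) * p.eval (i : ℝ) ≤ p.eval (j : ℝ)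

/-- the values as natural numbers -/
noncomputable def nv (p : ℝ[X]) (d : ℕ) : ℕ := ⌊p.eval (d : ℝ)⌋₊

theorem Cv.nv_spec {M K : ℕ} {μ c : ℝ} {p : ℝ[X]} {L : ℕ} (h : Cv M K μ c p L) {d : ℕ} (hd : d < L) :
    (nv p d : ℝ) = p.eval (d : ℝ) ∧ M ≤ nv p d ∧ nv p d ≤ 2 * M := by
  obtain ⟨n, h1, h2, h3⟩ := h.val d hd
  have h4 : nv p d = n := by
    unfold nv
    rw [← h1, Nat.floor_natCast]
  rw [h4]
  exact ⟨h1, h2, h3⟩

/-- the multiplicities -/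
theorem Cv.mult {M K : ℕ} {μ c : ℝ} {p : ℝ[X]} {L : ℕ} (h : Cv M K μ c p L) (hM : 1 ≤ M) (n : ℕ) :
    ((range L).filter (fun d => nv p d = n)).card ≤ K := by
  classical
  have hM0 : (0 : ℝ) < M := by exact_mod_cast hM
  have hne : p - C (n : ℝ) ≠ 0 := by
    intro h0
    obtain ⟨i, hi, j, hj, hij⟩ := h.var
    have h1 : p = C (n : ℝ) := sub_eq_zero.1 h0
    have h2 := (h.nv_spec hi).1
    have h3 : (M : ℝ) ≤ nv p i := by exact_mod_cast (h.nv_spec hi).2.1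
    rw [h1, eval_C, eval_C] at hij
    rw [h1] at h2
    rw [eval_C] at h2
    rw [h1] at h3
    have h4 : 0 < (M : ℝ) ^ (-c) := by positivity
    have h5 : 0 < (n : ℝ) := by linarith
    nlinarith
  have h1 : ((range L).filter (fun d => nv p d = n)).card ≤ (p - C (n : ℝ)).roots.toFinset.card := by
    apply card_le_card_of_injOn (fun d : ℕ => (d : ℝ))
    · intro d hd
      rw [mem_coe, mem_filter, mem_range] at hd
      rw [mem_coe, Multiset.mem_toFinset, mem_roots hne, IsRoot.def, eval_sub, eval_C, ← (h.nv_spec hd.1).1, hd.2,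
        sub_self]
    · intro a _ b _ hab
      exact Nat.cast_injective hab
  refine h1.trans ((Multiset.toFinset_card_le _).trans ((card_roots' _).trans ?_))
  rw [natDegree_sub_C]
  exact h.deg

theorem Cv.len {M K : ℕ} {μ c : ℝ} {p : ℝ[X]} {L : ℕ} (h : Cv M K μ c p L) (hM : 1 ≤ M) :
    (L : ℝ) ≤ 2 * K * M := by
  classical
  have h1 : (range L).card ≤ K * (Icc M (2 * M)).card := by
    apply card_le_mul_card_image_of_maps_to (f := nv p)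
    · intro d hd
      rw [mem_range] at hd
      rw [mem_Icc]
      exact (h.nv_spec hd).2
    · intro n _
      exact h.mult hM n
  rw [card_range, Nat.card_Icc] at h1
  have h2 : K * (2 * M + 1 - M) ≤ K * (2 * M) := Nat.mul_le_mul_left _ (by omega)
  have h3 : L ≤ K * (2 * M) := h1.trans h2
  have h4 : (L : ℝ) ≤ K * (2 * M) := by exact_mod_cast h3
  linarith

/-- **The kernel.** -/
theorem kerM (A μ : ℝ) (K : ℕ) (hA : 1 ≤ A) (hμ : 0 < μ) (hμ1 : μ ≤ 1) (hK : 1 ≤ K) :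
    ∃ δ C : ℝ, 0 < δ ∧ δ ≤ 1 / 2 ∧ 1 ≤ C ∧ ∀ (M L : ℕ) (p : ℝ[X]), 1 ≤ M → Cv M K μ δ p L →
      ∀ t : ℝ, (M : ℝ) ≤ |t| → |t| ≤ (2 * M : ℝ) ^ A →
      ‖∑ d ∈ range L, ph t (nv p d)‖ ≤ C * L * (M : ℝ) ^ (-δ) := by
  obtain ⟨B, hB, L0, hL0, hgeom⟩ := geom K hK
  obtain ⟨Q, hQ⟩ : ∃ Q : ℕ, Q = ⌈(A + 1) / μ⌉₊ + 1 := ⟨_, rfl⟩
  have hQ1 : 1 ≤ Q := by omega
  have hQA : A + 1 ≤ μ * Q := by
    have h1 := Nat.le_ceil ((A + 1) / μ)
    have h2 : (A + 1) / μ ≤ Q := by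
      rw [hQ]
      push_cast
      linarith
    rw [div_le_iff₀ hμ] at h2
    linarith
  obtain ⟨η, hη, hη1, C0, hC0, hker⟩ := kernel K Q hK hQ1 B hB
  have hB0 : 0 < B := by linarith
  have hK' : (1 : ℝ) ≤ K := by exact_mod_cast hK
  have hL0' : (1 : ℝ) ≤ L0 := by exact_mod_cast hL0
  -- the threshold
  set X : ℝ := (2 * L0) ^ (1 / μ) + 2 ^ A * (2 * B) ^ Q + (8 * B * K) ^ 2 with hX
  have hX1 : 1 ≤ X := by
    have h1 : (1 : ℝ) ≤ (2 * L0) ^ (1 / μ) := Real.one_le_rpow (by linarith) (by positivity)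
    have h2 : 0 ≤ (2 : ℝ) ^ A * (2 * B) ^ Q := by positivity
    have h3 : 0 ≤ (8 * B * K) ^ 2 := by positivity
    linarith
  set δ : ℝ := μ * η / 2 with hδ
  have hδ0 : 0 < δ := by positivity
  have hδ1 : δ ≤ 1 / 2 := by rw [hδ]; nlinarith
  refine ⟨δ, X ^ δ + C0 * (4 * B) * (2 * B), hδ0, hδ1, ?_, ?_⟩
  · have h1 : 1 ≤ X ^ δ := Real.one_le_rpow hX1 hδ0.le
    have h2 : 0 ≤ C0 * (4 * B) * (2 * B) := by positivity
    linarith
  intro M L p hM hcv t ht1 ht2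
  have hM1 : (1 : ℝ) ≤ M := by exact_mod_cast hM
  have hM0 : (0 : ℝ) < M := by linarith
  rcases lt_or_ge (M : ℝ) X with hsmall | hbig
  · -- small `M`
    have h1 : ‖∑ d ∈ range L, ph t (nv p d)‖ ≤ L := by
      refine (norm_sum_le _ _).trans ?_
      simp only [ph_norm, sum_const, card_range, nsmul_eq_mul, mul_one, le_refl]
    have h2 : 1 ≤ X ^ δ * (M : ℝ) ^ (-δ) := by
      rw [Real.rpow_neg hM0.le, ← div_eq_mul_inv, le_div_iff₀ (by positivity), one_mul]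
      exact Real.rpow_le_rpow hM0.le hsmall.le hδ0.le
    have h3 : 0 ≤ C0 * (4 * B) * (2 * B) * L * (M : ℝ) ^ (-δ) := by positivity
    calc ‖∑ d ∈ range L, ph t (nv p d)‖ ≤ L * 1 := by linarith
      _ ≤ L * (X ^ δ * (M : ℝ) ^ (-δ)) := by gcongr
      _ ≤ (X ^ δ + C0 * (4 * B) * (2 * B)) * L * (M : ℝ) ^ (-δ) := by nlinarith
  have hX2 : (2 * L0) ^ (1 / μ) ≤ (M : ℝ) := by
    have h2 : 0 ≤ (2 : ℝ) ^ A * (2 * B) ^ Q := by positivity
    have h3 : 0 ≤ (8 * B * K) ^ 2 := by positivity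
    linarith
  have hX3 : (2 : ℝ) ^ A * (2 * B) ^ Q ≤ M := by
    have h2 : 0 ≤ (2 * (L0 : ℝ)) ^ (1 / μ) := by positivity
    have h3 : 0 ≤ (8 * B * K) ^ 2 := by positivity
    linarith
  have hX4 : (8 * B * K) ^ 2 ≤ (M : ℝ) := by
    have h2 : 0 ≤ (2 * (L0 : ℝ)) ^ (1 / μ) := by positivity
    have h3 : 0 ≤ (2 : ℝ) ^ A * (2 * B) ^ Q := by positivity
    linarith
  have hMμ : (1 : ℝ) ≤ (M : ℝ) ^ μ := Real.one_le_rpow hM1 hμ.le
  have hLlow : (M : ℝ) ^ μ / 2 ≤ L := by linarith [hcv.long]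
  have hLpos : (0 : ℝ) < L := by linarith
  have hL0L : L0 ≤ L := by
    have h1 : 2 * (L0 : ℝ) ≤ (M : ℝ) ^ μ := by
      calc 2 * (L0 : ℝ) = ((2 * L0) ^ (1 / μ)) ^ μ := by
            rw [← Real.rpow_mul (by positivity), one_div_mul_cancel hμ.ne', Real.rpow_one]
        _ ≤ _ := Real.rpow_le_rpow (by positivity) hX2 hμ.le
    have h2 : (L0 : ℝ) ≤ L := by linarith
    exact_mod_cast h2
  obtain ⟨z, hz⟩ := exists_fac p
  set ε : ℝ := (M : ℝ) ^ (-δ) / 2 with hε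
  have hε0 : 0 < ε := by positivity
  have hε1 : ε ≤ 1 := by
    have : (M : ℝ) ^ (-δ) ≤ 1 := Real.rpow_le_one_of_one_le_of_nonpos hM1 (by linarith)
    linarith
  obtain ⟨N, hN, hLN, hNL, hpos, hfar, hnear⟩ := hgeom p z L M ε hz hcv.deg hL0L hM0 hε0 hε1 (by
    intro d hd
    obtain ⟨h1, h2, h3⟩ := hcv.nv_spec hd
    rw [← h1]
    exact ⟨by exact_mod_cast h2, by exact_mod_cast h3⟩) hcv.var
  have hN1 : (1 : ℝ) ≤ N := by exact_mod_cast hN
  have hN0 : (0 : ℝ) < N := by linarith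
  -- the sizes
  have hNL2 : (N : ℝ) ≤ 2 * B * L * (M : ℝ) ^ δ := by
    refine hNL.trans (le_of_eq ?_)
    rw [hε, Real.rpow_neg hM0.le]
    have : 0 < (M : ℝ) ^ δ := by positivity
    field_simp
  have hNlow : (M : ℝ) ^ μ / (2 * B) ≤ N := by
    rw [div_le_iff₀ (by positivity)]
    have : (L : ℝ) ≤ B * N := hLN
    linarith
  have hsq : (N : ℝ) ^ (1 / 2 : ℝ) ≤ |t| := by
    refine le_trans ?_ ht1
    rw [← Real.sqrt_eq_rpow]
    apply Real.sqrt_le_iff.2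
    refine ⟨hM0.le, ?_⟩
    have h1 : (M : ℝ) ^ δ ≤ (M : ℝ) ^ (1 / 2 : ℝ) := Real.rpow_le_rpow_of_exponent_le hM1 hδ1
    have h2 : (L : ℝ) ≤ 2 * K * M := hcv.len hM
    have h3 : 8 * B * K ≤ (M : ℝ) ^ (1 / 2 : ℝ) := by
      rw [← Real.sqrt_eq_rpow]
      exact Real.le_sqrt_of_sq_le hX4
    have h4 : (M : ℝ) ^ (1 / 2 : ℝ) * (M : ℝ) ^ (1 / 2 : ℝ) = M := by
      rw [← Real.rpow_add hM0]
      norm_num
    have h5 : 0 ≤ (M : ℝ) ^ (1 / 2 : ℝ) := by positivity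
    calc (N : ℝ) ≤ 2 * B * L * (M : ℝ) ^ δ := hNL2
      _ ≤ 2 * B * (2 * K * M) * (M : ℝ) ^ (1 / 2 : ℝ) := by gcongr
      _ = (4 * B * K) * (M : ℝ) ^ (1 / 2 : ℝ) * M := by ring
      _ ≤ (8 * B * K) * (M : ℝ) ^ (1 / 2 : ℝ) * M := by
          gcongr
          norm_num
      _ ≤ (M : ℝ) ^ (1 / 2 : ℝ) * (M : ℝ) ^ (1 / 2 : ℝ) * M := by gcongr
      _ = (M : ℝ) ^ 2 := by rw [h4]; ring
  have hup : |t| ≤ (N : ℝ) ^ Q := by
    refine ht2.trans ?_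
    calc (2 * M : ℝ) ^ A = 2 ^ A * (M : ℝ) ^ A := Real.mul_rpow (by norm_num) hM0.le
      _ ≤ (M : ℝ) ^ (A + 1) / (2 * B) ^ Q := by
          rw [le_div_iff₀ (by positivity), Real.rpow_add hM0, Real.rpow_one]
          calc 2 ^ A * (M : ℝ) ^ A * (2 * B) ^ Q = (2 ^ A * (2 * B) ^ Q) * (M : ℝ) ^ A := by ring
            _ ≤ M * (M : ℝ) ^ A := by gcongr
            _ = _ := by ring
      _ ≤ (M : ℝ) ^ (μ * Q) / (2 * B) ^ Q := by
          gcongr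
      _ = ((M : ℝ) ^ μ / (2 * B)) ^ Q := by
          rw [div_pow, Real.rpow_mul hM0.le, Real.rpow_natCast]
      _ ≤ _ := by gcongr
  have hk := hker p z hz hcv.deg N L t hN hLN hpos hfar hnear hsq hup
  have hsum : ∑ d ∈ range L, ph t (nv p d) =
      ∑ d ∈ range L, e (t / (2 * Real.pi) * Real.log (p.eval (d : ℝ))) := by
    apply sum_congr rfl
    intro d hd
    rw [mem_range] at hd
    rw [ph_e, (hcv.nv_spec hd).1]
  rw [hsum]
  refine hk.trans ?_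
  have h1 : (N : ℝ) ^ (1 - η) = N * (N : ℝ) ^ (-η) := by
    rw [sub_eq_add_neg, Real.rpow_add hN0, Real.rpow_one]
  have h2 : (N : ℝ) ^ (-η) ≤ (2 * B) * (M : ℝ) ^ (-(μ * η)) := by
    calc (N : ℝ) ^ (-η) ≤ ((M : ℝ) ^ μ / (2 * B)) ^ (-η) :=
          Real.rpow_le_rpow_of_nonpos (by positivity) hNlow (by linarith)
      _ = (2 * B) ^ η * (M : ℝ) ^ (-(μ * η)) := by
          rw [Real.div_rpow (by positivity) (by positivity), ← Real.rpow_mul hM0.le,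
            Real.rpow_neg (by positivity : (0 : ℝ) ≤ 2 * B), div_inv_eq_mul, mul_comm]
          congr 2
          ring
      _ ≤ (2 * B) * (M : ℝ) ^ (-(μ * η)) := by
          have : (2 * B) ^ η ≤ 2 * B := by
            calc (2 * B) ^ η ≤ (2 * B) ^ (1 : ℝ) := Real.rpow_le_rpow_of_exponent_le (by linarith) hη1
              _ = 2 * B := Real.rpow_one _
          gcongr
  have h3 : (M : ℝ) ^ δ * (M : ℝ) ^ (-(μ * η)) = (M : ℝ) ^ (-δ) := by
    rw [← Real.rpow_add hM0]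
    congr 1
    rw [hδ]; ring
  calc C0 * (N : ℝ) ^ (1 - η) = C0 * (N * (N : ℝ) ^ (-η)) := by rw [h1]
    _ ≤ C0 * ((2 * B * L * (M : ℝ) ^ δ) * ((2 * B) * (M : ℝ) ^ (-(μ * η)))) := by gcongr
    _ = C0 * (2 * B) * (2 * B) * L * ((M : ℝ) ^ δ * (M : ℝ) ^ (-(μ * η))) := by ring
    _ = C0 * (2 * B) * (2 * B) * L * (M : ℝ) ^ (-δ) := by rw [h3]
    _ ≤ (X ^ δ + C0 * (4 * B) * (2 * B)) * L * (M : ℝ) ^ (-δ) := by
        have h4 : 0 ≤ X ^ δ := by positivity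
        have h5 : C0 * (2 * B) * (2 * B) ≤ X ^ δ + C0 * (4 * B) * (2 * B) := by
          have : 0 ≤ C0 * B * B := by positivity
          nlinarith
        gcongr

/-- **One arc.** -/
theorem one (A μ : ℝ) (K : ℕ) (hA : 1 ≤ A) (hμ : 0 < μ) (hμ1 : μ ≤ 1) (hK : 1 ≤ K) :
    ∃ δ C : ℝ, 0 < δ ∧ δ ≤ 1 / 2 ∧ 1 ≤ C ∧ ∀ (M L : ℕ) (p : ℝ[X]), 1 ≤ M → Cv M K μ δ p L →
      ∀ (T x : ℝ) (W : Finset ℝ), T ≤ (2 * M : ℝ) ^ A → Sep W → (∀ t ∈ W, x ≤ t ∧ t ≤ x + T) →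
      ∀ b : ℕ → ℂ, ∑ t ∈ W, ‖∑ n ∈ (range L).image (nv p), b n * ph t n‖ ^ 2 ≤
        C * L * ((M : ℝ) ^ (1 - μ / 4) + W.card * (M : ℝ) ^ (-δ)) * ∑ n ∈ (range L).image (nv p), ‖b n‖ ^ 2 := by
  classical
  obtain ⟨δ, C0, hδ, hδ1, hC0, hker⟩ := kerM A μ K hA hμ hμ1 hK
  obtain ⟨C2, hC2, hlg⟩ := lg_pow 2 (μ / 4) (by norm_num) (by positivity)
  have hK' : (1 : ℝ) ≤ K := by exact_mod_cast hK
  refine ⟨δ, 20 * C2 * K + C0, hδ, hδ1, ?_, ?_⟩
  · have : 0 ≤ 20 * C2 * K := by positivity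
    linarith
  intro M L p hM hcv T x W hT hW hWT b
  have hM1 : (1 : ℝ) ≤ M := by exact_mod_cast hM
  have hM0 : (0 : ℝ) < M := by linarith
  have hMμ : (1 : ℝ) ≤ (M : ℝ) ^ μ := Real.one_le_rpow hM1 hμ.le
  have hLlow : (M : ℝ) ^ μ / 2 ≤ L := by linarith [hcv.long]
  have hLpos : (0 : ℝ) < L := by linarith
  set P : Finset ℕ := (range L).image (nv p) with hP
  set w : ℕ → ℝ := fun n => (((range L).filter (fun d => nv p d = n)).card : ℝ) with hw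
  have hw1 : ∀ n ∈ P, 1 ≤ w n := by
    intro n hn
    rw [hP, mem_image] at hn
    obtain ⟨d, hd, hdn⟩ := hn
    have : 0 < ((range L).filter (fun d => nv p d = n)).card := card_pos.2 ⟨d, mem_filter.2 ⟨hd, hdn⟩⟩
    simp only [hw]
    exact_mod_cast this
  have hPM : ∀ n ∈ P, 1 ≤ n ∧ n ≤ 2 * M := by
    intro n hn
    rw [hP, mem_image] at hn
    obtain ⟨d, hd, rfl⟩ := hn
    rw [mem_range] at hd
    have := (hcv.nv_spec hd).2
    exact ⟨hM.trans this.1, this.2⟩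
  have hsw : ∑ n ∈ P, w n = L := by
    have h1 := card_eq_sum_card_image (nv p) (range L)
    rw [card_range] at h1
    simp only [hw, hP]
    have h2 : (L : ℝ) = ((∑ b ∈ (range L).image (nv p), ((range L).filter (fun d => nv p d = b)).card : ℕ) : ℝ) := by
      exact_mod_cast h1
    rw [h2]
    push_cast
    rfl
  have hsw2 : ∑ n ∈ P, w n ^ 2 ≤ K * L := by
    rw [← hsw, mul_sum]
    apply sum_le_sum
    intro n hn
    rw [pow_two]
    apply mul_le_mul_of_nonneg_right _ (by linarith [hw1 n hn])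
    simp only [hw]
    exact_mod_cast hcv.mult hM n
  have hKW : ∀ t : ℝ, KW P w t = ∑ d ∈ range L, ph t (nv p d) := by
    intro t
    unfold KW
    rw [sum_comp (fun n => ph t n) (nv p)]
    simp only [hw, hP]
    apply sum_congr rfl
    intro n _
    rw [nsmul_eq_mul]
    push_cast
    rfl
  have hls := lsW M hM P w hw1 hPM W hW x T M (C0 * L * (M : ℝ) ^ (-δ)) hWT le_rfl (by positivity) (by
    intro t h1 h2
    rw [hKW]
    exact hker M L p hM hcv t h1.le (h2.trans hT)) b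
  refine hls.trans ?_
  apply mul_le_mul_of_nonneg_right _ (sum_nonneg fun _ _ => by positivity)
  have hlg2 : (1 + Real.log (2 * M)) ^ 2 ≤ C2 * (M : ℝ) ^ (μ / 4) := by
    have := hlg M hM
    rwa [Real.rpow_two] at this
  have hsqrt : Real.sqrt (∑ n ∈ P, w n ^ 2) ≤ 2 * K * L * (M : ℝ) ^ (-(μ / 2)) := by
    rw [Real.sqrt_le_left (by positivity)]
    refine hsw2.trans ?_
    have h1 : (M : ℝ) ^ (-(μ / 2)) * (M : ℝ) ^ (-(μ / 2)) = (M : ℝ) ^ (-μ) := by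
      rw [← Real.rpow_add hM0]; congr 1; ring
    have h2 : 1 ≤ 2 * L * (M : ℝ) ^ (-μ) := by
      rw [Real.rpow_neg hM0.le, ← div_eq_mul_inv, le_div_iff₀ (by positivity)]
      linarith
    calc (K : ℝ) * L = K * L * 1 := by ring
      _ ≤ K * L * (2 * L * (M : ℝ) ^ (-μ)) := mul_le_mul_of_nonneg_left h2 (by positivity)
      _ ≤ K * L * (2 * L * (M : ℝ) ^ (-μ)) * (2 * K) :=
          le_mul_of_one_le_right (by positivity) (by linarith)
      _ = (2 * K * L * (M : ℝ) ^ (-(μ / 2))) ^ 2 := by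
          rw [← h1]; ring
  have hlog0 : 0 ≤ Real.log (2 * (M : ℝ)) := Real.log_nonneg (by linarith)
  have hfirst : 10 * (M : ℝ) * (1 + Real.log (2 * M)) ^ 2 * Real.sqrt (∑ n ∈ P, w n ^ 2) ≤
      20 * C2 * K * L * (M : ℝ) ^ (1 - μ / 4) := by
    calc 10 * (M : ℝ) * (1 + Real.log (2 * M)) ^ 2 * Real.sqrt (∑ n ∈ P, w n ^ 2)
        ≤ 10 * (M : ℝ) * (C2 * (M : ℝ) ^ (μ / 4)) * (2 * K * L * (M : ℝ) ^ (-(μ / 2))) :=
          mul_le_mul (mul_le_mul_of_nonneg_left hlg2 (by positivity)) hsqrt (Real.sqrt_nonneg _) (by positivity)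
      _ = 20 * C2 * K * L * ((M : ℝ) ^ (1 : ℝ) * (M : ℝ) ^ (μ / 4) * (M : ℝ) ^ (-(μ / 2))) := by
          rw [Real.rpow_one]; ring
      _ = 20 * C2 * K * L * (M : ℝ) ^ (1 - μ / 4) := by
          rw [← Real.rpow_add hM0, ← Real.rpow_add hM0]
          congr 2
          ring
  have h1 : 0 ≤ C0 * L * (M : ℝ) ^ (1 - μ / 4) := by positivity
  have h2 : 0 ≤ 20 * C2 * K * L * (W.card * (M : ℝ) ^ (-δ)) := by positivity
  have e1 : (20 * C2 * K + C0) * L * ((M : ℝ) ^ (1 - μ / 4) + W.card * (M : ℝ) ^ (-δ)) =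
      20 * C2 * K * L * (M : ℝ) ^ (1 - μ / 4) + W.card * (C0 * L * (M : ℝ) ^ (-δ)) +
      (C0 * L * (M : ℝ) ^ (1 - μ / 4) + 20 * C2 * K * L * (W.card * (M : ℝ) ^ (-δ))) := by ring
  rw [e1]
  linarith

end Pool.Agent.J6H80.ML
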