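import Pool.Agent.J6H80.ML.KerM

/-!
Mean values over well-spaced sets for coefficients supported on a union of arcs.
-/

set_option autoImplicit false

namespace Pool.Agent.J6H80.ML

open Polynomial Finset
open Pool.Agent.TH705.DL (ph ph_norm Sep)
open Pool.Agent.R516.MS (lift sq_le pow_le)
open Pool.Agent.R516.MP (withE)

/-- from single sets to their union -/
theorem assemble (M : ℕ) (J : Finset ℕ) (P : ℕ → Finset ℕ) (L : ℕ → ℕ) (W : Finset ℝ) (l : ℝ) (hl : 0 ≤ l)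
    (hL : ∀ j ∈ J, 1 ≤ L j) (hPsub : ∀ j ∈ J, P j ⊆ Icc M (2 * M))
    (h1 : ∀ j ∈ J, ∀ b : ℕ → ℂ, ∑ t ∈ W, ‖∑ n ∈ P j, b n * ph t n‖ ^ 2 ≤ L j * l * ∑ n ∈ P j, ‖b n‖ ^ 2)
    (b : ℕ → ℂ) (hs : ∀ n ∈ Icc M (2 * M), b n ≠ 0 → ∃ j ∈ J, n ∈ P j) :
    ∑ t ∈ W, ‖∑ n ∈ Icc M (2 * M), b n * ph t n‖ ^ 2 ≤
      (∑ j ∈ J, (L j : ℝ)) * l * ∑ n ∈ Icc M (2 * M), ‖b n‖ ^ 2 := by
  classical
  have hex : ∃ g : ℕ → ℕ, ∀ n ∈ Icc M (2 * M), b n ≠ 0 → g n ∈ J ∧ n ∈ P (g n) := by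
    refine ⟨fun n => if h : ∃ j ∈ J, n ∈ P j then h.choose else 0, ?_⟩
    intro n hn hne
    have h := hs n hn hne
    simp only [dif_pos h]
    exact h.choose_spec
  obtain ⟨g, hg⟩ := hex
  set bj : ℕ → ℕ → ℂ := fun j n => if g n = j then b n else 0 with hbj
  -- decomposition
  have hdec : ∀ t : ℝ, ∑ n ∈ Icc M (2 * M), b n * ph t n = ∑ j ∈ J, ∑ n ∈ P j, bj j n * ph t n := by
    intro t
    have e1 : ∀ j ∈ J, ∑ n ∈ P j, bj j n * ph t n = ∑ n ∈ Icc M (2 * M), bj j n * ph t n := by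
      intro j hj
      apply sum_subset (hPsub j hj)
      intro n hn hnP
      by_contra hne
      have h2 : bj j n ≠ 0 := left_ne_zero_of_mul hne
      simp only [hbj] at h2
      split_ifs at h2 with h3
      · have h4 := (hg n hn h2).2
        rw [h3] at h4
        exact hnP h4
      · exact h2 rfl
    rw [sum_congr rfl e1, sum_comm]
    apply sum_congr rfl
    intro n hn
    rw [← sum_mul]
    congr 1
    by_cases h0 : b n = 0
    · rw [h0]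
      symm
      apply sum_eq_zero
      intro j _
      simp only [hbj]
      split_ifs
      · exact h0
      · rfl
    · have h2 := (hg n hn h0).1
      simp only [hbj]
      rw [sum_ite_eq J (g n) (fun _ => b n), if_pos h2]
  have hl2 : ∑ j ∈ J, ∑ n ∈ P j, ‖bj j n‖ ^ 2 ≤ ∑ n ∈ Icc M (2 * M), ‖b n‖ ^ 2 := by
    calc ∑ j ∈ J, ∑ n ∈ P j, ‖bj j n‖ ^ 2 ≤ ∑ j ∈ J, ∑ n ∈ Icc M (2 * M), ‖bj j n‖ ^ 2 := by
          apply sum_le_sum
          intro j hj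
          exact sum_le_sum_of_subset_of_nonneg (hPsub j hj) (fun _ _ _ => by positivity)
      _ = ∑ n ∈ Icc M (2 * M), ∑ j ∈ J, ‖bj j n‖ ^ 2 := sum_comm
      _ ≤ ∑ n ∈ Icc M (2 * M), ‖b n‖ ^ 2 := by
          apply sum_le_sum
          intro n _
          have e1 : ∑ j ∈ J, ‖bj j n‖ ^ 2 = ∑ j ∈ J, (if g n = j then ‖b n‖ ^ 2 else 0) := by
            apply sum_congr rfl
            intro j _
            simp only [hbj]
            split_ifs <;> simp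
          rw [e1, sum_ite_eq J (g n) (fun _ => ‖b n‖ ^ 2)]
          split_ifs
          · exact le_rfl
          · positivity
  have hSL : 0 ≤ ∑ j ∈ J, (L j : ℝ) := sum_nonneg fun _ _ => Nat.cast_nonneg _
  -- Cauchy–Schwarz
  have hcs : ∀ t : ℝ, ‖∑ n ∈ Icc M (2 * M), b n * ph t n‖ ^ 2 ≤
      (∑ j ∈ J, (L j : ℝ)) * ∑ j ∈ J, ‖∑ n ∈ P j, bj j n * ph t n‖ ^ 2 / L j := by
    intro t
    rw [hdec]
    have h2 := norm_sum_le J (fun j => ∑ n ∈ P j, bj j n * ph t n)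
    have h3 : (∑ j ∈ J, ‖∑ n ∈ P j, bj j n * ph t n‖) ^ 2 ≤
        (∑ j ∈ J, (L j : ℝ)) * ∑ j ∈ J, ‖∑ n ∈ P j, bj j n * ph t n‖ ^ 2 / L j := by
      apply sum_sq_le_sum_mul_sum_of_sq_eq_mul
      · intro j _; exact Nat.cast_nonneg _
      · intro j _; positivity
      · intro j hj
        have hLj : (0 : ℝ) < L j := by exact_mod_cast hL j hj
        field_simp
    exact (pow_le_pow_left₀ (norm_nonneg _) h2 2).trans h3
  calc ∑ t ∈ W, ‖∑ n ∈ Icc M (2 * M), b n * ph t n‖ ^ 2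
      ≤ ∑ t ∈ W, (∑ j ∈ J, (L j : ℝ)) * ∑ j ∈ J, ‖∑ n ∈ P j, bj j n * ph t n‖ ^ 2 / L j :=
        sum_le_sum fun t _ => hcs t
    _ = (∑ j ∈ J, (L j : ℝ)) * ∑ j ∈ J, (∑ t ∈ W, ‖∑ n ∈ P j, bj j n * ph t n‖ ^ 2) / L j := by
        rw [← mul_sum, sum_comm]
        congr 1
        apply sum_congr rfl
        intro j _
        rw [sum_div]
    _ ≤ (∑ j ∈ J, (L j : ℝ)) * ∑ j ∈ J, l * ∑ n ∈ P j, ‖bj j n‖ ^ 2 := by
        apply mul_le_mul_of_nonneg_left _ hSL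
        apply sum_le_sum
        intro j hj
        have hLj : (0 : ℝ) < L j := by exact_mod_cast hL j hj
        rw [div_le_iff₀ hLj]
        refine (h1 j hj (bj j)).trans (le_of_eq ?_)
        ring
    _ = (∑ j ∈ J, (L j : ℝ)) * l * ∑ j ∈ J, ∑ n ∈ P j, ‖bj j n‖ ^ 2 := by
        rw [← mul_sum]; ring
    _ ≤ _ := by
        apply mul_le_mul_of_nonneg_left hl2
        positivity

/-- the family of arcs -/
def Fam (M K : ℕ) (μ c : ℝ) (J : Finset ℕ) (p : ℕ → ℝ[X]) (L : ℕ → ℕ) : Prop :=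
  (∀ j ∈ J, Cv M K μ c (p j) (L j)) ∧ ∑ j ∈ J, (L j : ℝ) ≤ 2 * (M : ℝ) ^ (1 / 2 + c)

/-- `n` is a value of one of the polynomials -/
def Cov (J : Finset ℕ) (p : ℕ → ℝ[X]) (L : ℕ → ℕ) (n : ℕ) : Prop :=
  ∃ j ∈ J, ∃ d < L j, (n : ℝ) = (p j).eval (d : ℝ)

theorem Cv.mono {M K : ℕ} {μ c c' : ℝ} {p : ℝ[X]} {L : ℕ} (h : Cv M K μ c p L) (hM : 1 ≤ M) (hc : c ≤ c') :
    Cv M K μ c' p L := by
  have hM1 : (1 : ℝ) ≤ M := by exact_mod_cast hM
  refine ⟨h.deg, h.long, h.val, ?_⟩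
  obtain ⟨i, hi, j, hj, hij⟩ := h.var
  refine ⟨i, hi, j, hj, le_trans ?_ hij⟩
  have h1 : (M : ℝ) ^ (-c') ≤ (M : ℝ) ^ (-c) := Real.rpow_le_rpow_of_exponent_le hM1 (by linarith)
  have h2 : 0 ≤ p.eval (i : ℝ) := by
    rw [← (h.nv_spec hi).1]
    exact Nat.cast_nonneg _
  gcongr

/-- **The mean value.** -/
theorem main (A μ : ℝ) (K : ℕ) (hA : 1 ≤ A) (hμ : 0 < μ) (hμ1 : μ ≤ 1) (hK : 1 ≤ K) :
    ∃ c C : ℝ, 0 < c ∧ c ≤ 1 / 4 ∧ 1 ≤ C ∧ ∀ (M : ℕ) (J : Finset ℕ) (p : ℕ → ℝ[X]) (L : ℕ → ℕ), 1 ≤ M →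
      Fam M K μ c J p L → ∀ (T x : ℝ) (W : Finset ℝ) (b : ℕ → ℂ), T ≤ (2 * M : ℝ) ^ A → Sep W →
      (∀ t ∈ W, x ≤ t ∧ t ≤ x + T) → (∀ n ∈ Icc M (2 * M), b n ≠ 0 → Cov J p L n) →
      (∑ t ∈ W, ‖∑ n ∈ Icc M (2 * M), b n * ph t n‖ ^ 2 ≤
        C * ((M : ℝ) ^ (3 / 2 - c) + W.card * (M : ℝ) ^ (1 / 2 - c)) * ∑ n ∈ Icc M (2 * M), ‖b n‖ ^ 2) ∧
      ((∀ n, ‖b n‖ ≤ 1) → ∑ t ∈ W, ‖∑ n ∈ Icc M (2 * M), b n * ph t n‖ ^ 2 ≤
        C * ((M : ℝ) + W.card) * M) := by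
  classical
  obtain ⟨δ, C0, hδ, hδ1, hC0, hone⟩ := one A μ K hA hμ hμ1 hK
  set c : ℝ := min (μ / 8) (δ / 2) with hc
  have hc0 : 0 < c := by rw [hc]; positivity
  have hc1 : c ≤ μ / 8 := min_le_left _ _
  have hc2 : c ≤ δ / 2 := min_le_right _ _
  refine ⟨c, 4 * C0, hc0, by linarith, by linarith, ?_⟩
  intro M J p L hM hF T x W b hT hW hWT hs
  obtain ⟨hF1, hF2⟩ := hF
  have hM1 : (1 : ℝ) ≤ M := by exact_mod_cast hM
  have hM0 : (0 : ℝ) < M := by linarith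
  have hpow : ∀ x y : ℝ, x ≤ y → (M : ℝ) ^ x ≤ (M : ℝ) ^ y :=
    fun x y h => Real.rpow_le_rpow_of_exponent_le hM1 h
  have hSL : 0 ≤ ∑ j ∈ J, (L j : ℝ) := sum_nonneg fun _ _ => Nat.cast_nonneg _
  obtain ⟨l, hl⟩ : ∃ l : ℝ, l = C0 * ((M : ℝ) ^ (1 - μ / 4) + W.card * (M : ℝ) ^ (-δ)) := ⟨_, rfl⟩
  have hl0 : 0 ≤ l := by rw [hl]; positivity
  have hcov : ∀ n, Cov J p L n → ∃ j ∈ J, n ∈ (range (L j)).image (nv (p j)) := by
    intro n hn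
    obtain ⟨j, hj, d, hd, h2⟩ := hn
    refine ⟨j, hj, ?_⟩
    rw [mem_image]
    refine ⟨d, mem_range.2 hd, ?_⟩
    unfold nv
    rw [← h2, Nat.floor_natCast]
  have h1 := assemble M J (fun j => (range (L j)).image (nv (p j))) L W l hl0 (by
    intro j hj
    obtain ⟨i, hi, _⟩ := (hF1 j hj).var
    omega) (by
    intro j hj n hn
    rw [mem_image] at hn
    obtain ⟨d, hd, rfl⟩ := hn
    rw [mem_range] at hd
    rw [mem_Icc]
    exact ((hF1 j hj).nv_spec hd).2) (by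
    intro j hj b'
    refine (hone M (L j) (p j) hM ((hF1 j hj).mono hM (by linarith)) T x W hT hW hWT b').trans (le_of_eq ?_)
    rw [hl]; ring) b (fun n hn hne => hcov n (hs n hn hne))
  have hG0 : 0 ≤ ∑ n ∈ Icc M (2 * M), ‖b n‖ ^ 2 := sum_nonneg fun _ _ => by positivity
  -- the bound with the `ℓ²` norm
  have h2 : (∑ j ∈ J, (L j : ℝ)) * l ≤
      2 * C0 * ((M : ℝ) ^ (3 / 2 - c) + W.card * (M : ℝ) ^ (1 / 2 - c)) := by
    have e1 : (M : ℝ) ^ (1 / 2 + c) * (M : ℝ) ^ (1 - μ / 4) ≤ (M : ℝ) ^ (3 / 2 - c) := by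
      rw [← Real.rpow_add hM0]; apply hpow; linarith
    have e2 : (M : ℝ) ^ (1 / 2 + c) * (M : ℝ) ^ (-δ) ≤ (M : ℝ) ^ (1 / 2 - c) := by
      rw [← Real.rpow_add hM0]; apply hpow; linarith
    calc (∑ j ∈ J, (L j : ℝ)) * l ≤ (2 * (M : ℝ) ^ (1 / 2 + c)) * l := by gcongr
      _ = 2 * C0 * ((M : ℝ) ^ (1 / 2 + c) * (M : ℝ) ^ (1 - μ / 4) +
          W.card * ((M : ℝ) ^ (1 / 2 + c) * (M : ℝ) ^ (-δ))) := by rw [hl]; ring
      _ ≤ _ := by gcongr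
  constructor
  · refine h1.trans ?_
    apply mul_le_mul_of_nonneg_right _ hG0
    refine h2.trans ?_
    have h3 : 0 ≤ (M : ℝ) ^ (3 / 2 - c) + W.card * (M : ℝ) ^ (1 / 2 - c) := by positivity
    nlinarith [mul_nonneg (by linarith : (0 : ℝ) ≤ C0) h3]
  · intro hb
    have h3 : ∑ n ∈ Icc M (2 * M), ‖b n‖ ^ 2 ≤ 2 * (M : ℝ) ^ (1 / 2 + c) := by
      refine le_trans ?_ hF2
      have e1 : ∀ n ∈ Icc M (2 * M), ‖b n‖ ^ 2 ≤
          ∑ j ∈ J, (if n ∈ (range (L j)).image (nv (p j)) then (1 : ℝ) else 0) := by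
        intro n hn
        have hnn : ∀ j ∈ J, (0 : ℝ) ≤ (if n ∈ (range (L j)).image (nv (p j)) then (1 : ℝ) else 0) := by
          intro j _; split_ifs <;> norm_num
        by_cases h0 : b n = 0
        · rw [h0]
          simp only [norm_zero, ne_eq, OfNat.ofNat_ne_zero, not_false_eq_true, zero_pow]
          exact sum_nonneg hnn
        · obtain ⟨j, hj, h6⟩ := hcov n (hs n hn h0)
          have h5 := single_le_sum hnn hj
          rw [if_pos h6] at h5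
          exact (pow_le_one₀ (norm_nonneg _) (hb n)).trans h5
      calc ∑ n ∈ Icc M (2 * M), ‖b n‖ ^ 2
          ≤ ∑ n ∈ Icc M (2 * M), ∑ j ∈ J, (if n ∈ (range (L j)).image (nv (p j)) then (1 : ℝ) else 0) :=
            sum_le_sum e1
        _ = ∑ j ∈ J, ∑ n ∈ Icc M (2 * M), (if n ∈ (range (L j)).image (nv (p j)) then (1 : ℝ) else 0) :=
            sum_comm
        _ ≤ ∑ j ∈ J, (L j : ℝ) := by
            apply sum_le_sum
            intro j _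
            rw [← sum_filter]
            simp only [sum_const, nsmul_eq_mul, mul_one]
            have h4 : ((Icc M (2 * M)).filter (fun n => n ∈ (range (L j)).image (nv (p j)))).card ≤ L j := by
              refine (card_le_card (fun n hn => (mem_filter.1 hn).2)).trans (card_image_le.trans ?_)
              rw [card_range]
            exact_mod_cast h4
    have h4 : (∑ j ∈ J, (L j : ℝ)) * l * ∑ n ∈ Icc M (2 * M), ‖b n‖ ^ 2 ≤
        (2 * C0 * ((M : ℝ) ^ (3 / 2 - c) + W.card * (M : ℝ) ^ (1 / 2 - c))) * (2 * (M : ℝ) ^ (1 / 2 + c)) := by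
      apply mul_le_mul h2 h3 hG0 (by positivity)
    refine h1.trans (h4.trans (le_of_eq ?_))
    have e1 : (M : ℝ) ^ (3 / 2 - c) * (M : ℝ) ^ (1 / 2 + c) = M ^ 2 := by
      rw [← Real.rpow_add hM0, ← Real.rpow_natCast (M : ℝ) 2]
      congr 1; push_cast; ring
    have e2 : (M : ℝ) ^ (1 / 2 - c) * (M : ℝ) ^ (1 / 2 + c) = M := by
      rw [← Real.rpow_add hM0]
      have : (1 / 2 - c + (1 / 2 + c) : ℝ) = 1 := by ring
      rw [this, Real.rpow_one]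
    calc (2 * C0 * ((M : ℝ) ^ (3 / 2 - c) + W.card * (M : ℝ) ^ (1 / 2 - c))) * (2 * (M : ℝ) ^ (1 / 2 + c))
        = 4 * C0 * ((M : ℝ) ^ (3 / 2 - c) * (M : ℝ) ^ (1 / 2 + c) +
          W.card * ((M : ℝ) ^ (1 / 2 - c) * (M : ℝ) ^ (1 / 2 + c))) := by ring
      _ = _ := by rw [e1, e2]; ring

/-- the polynomial `p` of degree at most `K` takes integer values in `[N/2, N]` at `0, 1, …, L - 1`, where
`L ≥ N^μ`, and its largest value there is at least `1 + N^(-c)` times the smallest one -/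
structure Arc (N K : ℕ) (μ c : ℝ) (p : ℝ[X]) (L : ℕ) : Prop where
  deg : p.natDegree ≤ K
  long : (N : ℝ) ^ μ ≤ L
  val : ∀ d < L, ∃ n : ℕ, (n : ℝ) = p.eval (d : ℝ) ∧ N ≤ 2 * n ∧ n ≤ N
  var : ∃ i < L, ∃ j < L, (1 + (N : ℝ) ^ (-c)) * p.eval (i : ℝ) ≤ p.eval (j : ℝ)

/-- the hypothesis for `N` implies the hypothesis for `M`, `M ≤ N ≤ 2M` -/
theorem fam_of {N M K : ℕ} {μ c : ℝ} {J : Finset ℕ} {p : ℕ → ℝ[X]} {L : ℕ → ℕ} (hM : 1 ≤ M) (hMN : M ≤ N)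
    (hNM : N ≤ 2 * M) (hNM2 : 2 * M ≤ N + 1) (hμ : 0 < μ) (hc : 0 < c) (hc1 : c ≤ 1 / 4)
    (h1 : ∀ j ∈ J, Arc N K μ c (p j) (L j))
    (h2 : ∑ j ∈ J, (L j : ℝ) ≤ (N : ℝ) ^ (1 / 2 + c)) : Fam M K μ c J p L := by
  have hM1 : (1 : ℝ) ≤ M := by exact_mod_cast hM
  have hM0 : (0 : ℝ) < M := by linarith
  have hMN' : (M : ℝ) ≤ N := by exact_mod_cast hMN
  have hNM' : (N : ℝ) ≤ 2 * M := by exact_mod_cast hNM
  constructor
  · intro j hj
    obtain ⟨a1, a2, a3, a4⟩ := h1 j hj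
    refine ⟨a1, ?_, ?_, ?_⟩
    · have h3 : (M : ℝ) ^ μ ≤ (N : ℝ) ^ μ := Real.rpow_le_rpow hM0.le hMN' hμ.le
      have h4 : (0 : ℝ) ≤ L j := Nat.cast_nonneg _
      linarith
    · intro d hd
      obtain ⟨n, b1, b2, b3⟩ := a3 d hd
      exact ⟨n, b1, by omega, by omega⟩
    · obtain ⟨i, hi, k, hk, hik⟩ := a4
      refine ⟨i, hi, k, hk, le_trans ?_ hik⟩
      obtain ⟨n, b1, _, _⟩ := a3 i hi
      have h3 : 0 ≤ (p j).eval (i : ℝ) := by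
        rw [← b1]
        exact Nat.cast_nonneg _
      have h4 : (M : ℝ) ^ (-c) / 2 ≤ (N : ℝ) ^ (-c) := by
        calc (M : ℝ) ^ (-c) / 2 ≤ (M : ℝ) ^ (-c) * (2 : ℝ) ^ (-c) := by
              rw [div_eq_mul_inv]
              have h5 : (2⁻¹ : ℝ) ≤ (2 : ℝ) ^ (-c) := by
                rw [← Real.rpow_neg_one]
                exact Real.rpow_le_rpow_of_exponent_le (by norm_num) (by linarith)
              gcongr
          _ = (2 * M : ℝ) ^ (-c) := by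
              rw [Real.mul_rpow (by norm_num) hM0.le, mul_comm]
          _ ≤ (N : ℝ) ^ (-c) := Real.rpow_le_rpow_of_nonpos (by linarith) hNM' (by linarith)
      gcongr
  · refine h2.trans ?_
    calc (N : ℝ) ^ (1 / 2 + c) ≤ (2 * M : ℝ) ^ (1 / 2 + c) :=
          Real.rpow_le_rpow (by linarith) hNM' (by linarith)
      _ = 2 ^ (1 / 2 + c) * (M : ℝ) ^ (1 / 2 + c) := Real.mul_rpow (by norm_num) hM0.le
      _ ≤ 2 * (M : ℝ) ^ (1 / 2 + c) := by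
          have : (2 : ℝ) ^ (1 / 2 + c) ≤ 2 := by
            calc (2 : ℝ) ^ (1 / 2 + c) ≤ 2 ^ (1 : ℝ) :=
                  Real.rpow_le_rpow_of_exponent_le (by norm_num) (by linarith)
              _ = 2 := Real.rpow_one _
          gcongr

/-- the mean value on `[1, N]` -/
theorem onOne (A μ : ℝ) (K : ℕ) (hA : 1 ≤ A) (hμ : 0 < μ) (hμ1 : μ ≤ 1) (hK : 1 ≤ K) :
    ∃ c C : ℝ, 0 < c ∧ 1 ≤ C ∧ ∀ (N : ℕ) (J : Finset ℕ) (p : ℕ → ℝ[X]) (L : ℕ → ℕ) (E : Finset ℕ), 1 ≤ N →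
      (∀ j ∈ J, Arc N K μ c (p j) (L j)) → ∑ j ∈ J, (L j : ℝ) ≤ (N : ℝ) ^ (1 / 2 + c) →
      (E.card : ℝ) ≤ (N : ℝ) ^ (1 / 2 : ℝ) → ∀ (T x : ℝ) (W : Finset ℝ) (a : ℕ → ℂ),
      T ≤ (N : ℝ) ^ A → Sep W → (∀ t ∈ W, x ≤ t ∧ t ≤ x + T) →
      (∀ n ∈ Icc 1 N, a n ≠ 0 → N ≤ 2 * n ∧ (n ∈ E ∨ Cov J p L n)) →
      ((∀ n, ‖a n‖ ≤ 1) →
        ∑ t ∈ W, ‖∑ n ∈ Icc 1 N, a n * ph t n‖ ^ 2 ≤ C * ((N : ℝ) + W.card) * N) ∧
      (E = ∅ → ∑ t ∈ W, ‖∑ n ∈ Icc 1 N, a n * ph t n‖ ^ 2 ≤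
        C * ((N : ℝ) ^ (3 / 2 - c) + W.card * (N : ℝ) ^ (1 / 2 - c)) * ∑ n ∈ Icc 1 N, ‖a n‖ ^ 2) := by
  classical
  obtain ⟨c, C, hc0, hc1, hC, h⟩ := main A μ K hA hμ hμ1 hK
  refine ⟨c, 2 * C + 4, hc0, by linarith, ?_⟩
  intro N J p L E hN h1 h2 hE T x W a hT hW hWT hs
  set M := (N + 1) / 2 with hM
  have hM1 : 1 ≤ M := by omega
  have hMN : M ≤ N := by omega
  have hNM : N ≤ 2 * M := by omega
  have hMr : (1 : ℝ) ≤ M := by exact_mod_cast hM1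
  have hMNr : (M : ℝ) ≤ N := by exact_mod_cast hMN
  have hF : Fam M K μ c J p L := fam_of hM1 hMN hNM (by omega) hμ hc0 hc1 h1 h2
  set b : ℕ → ℂ := fun n => if n ≤ N then a n else 0 with hb
  have hbs : ∀ n ∈ Icc M (2 * M), b n ≠ 0 → n ∈ Icc 1 N ∧ a n ≠ 0 := by
    intro n hn hne
    simp only [hb] at hne
    split_ifs at hne with h
    · rw [mem_Icc] at hn ⊢
      exact ⟨⟨by omega, h⟩, hne⟩
    · exact absurd rfl hne
  have hlift : ∀ t : ℝ, ∑ n ∈ Icc 1 N, a n * ph t n = ∑ n ∈ Icc M (2 * M), b n * ph t n := by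
    intro t
    exact lift N hN a (fun n => ph t n) (fun n hn hne => (hs n hn hne).1)
  simp only [hlift]
  constructor
  · intro ha
    have h3 := withE hM1 hC (Cov J p L) E W (sq_le E hE hNM) (fun b' hs' hb' =>
      (h M J p L hM1 hF T x W b' (pow_le hA hNM hT) hW hWT hs').2 hb') b (by
      intro n hn hne
      obtain ⟨h4, h5⟩ := hbs n hn hne
      exact (hs n h4 h5).2) (by
      intro n
      simp only [hb]
      split_ifs
      · exact ha n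
      · simp)
    refine h3.trans ?_
    have h6 : 0 ≤ 2 * C + 4 := by linarith
    gcongr
  · intro hEe
    have h3 := (h M J p L hM1 hF T x W b (pow_le hA hNM hT) hW hWT (by
      intro n hn hne
      obtain ⟨h4, h5⟩ := hbs n hn hne
      rcases (hs n h4 h5).2 with h6 | h6
      · rw [hEe] at h6
        exact absurd h6 (notMem_empty n)
      · exact h6)).1
    refine h3.trans ?_
    have h5 : C ≤ 2 * C + 4 := by linarith
    have h7 : ∑ n ∈ Icc M (2 * M), ‖b n‖ ^ 2 ≤ ∑ n ∈ Icc 1 N, ‖a n‖ ^ 2 := by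
      have e1 : ∑ n ∈ Icc M (2 * M), ‖b n‖ ^ 2 =
          ∑ n ∈ (Icc M (2 * M)).filter (fun n => n ≤ N), ‖a n‖ ^ 2 := by
        rw [sum_filter]
        apply sum_congr rfl
        intro n _
        simp only [hb]
        split_ifs <;> simp
      rw [e1]
      apply sum_le_sum_of_subset_of_nonneg
      · intro n hn
        rw [mem_filter, mem_Icc] at hn
        rw [mem_Icc]
        omega
      · intros; positivity
    have h8 : (M : ℝ) ^ (3 / 2 - c) ≤ (N : ℝ) ^ (3 / 2 - c) :=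
      Real.rpow_le_rpow (by linarith) hMNr (by linarith)
    have h9 : (M : ℝ) ^ (1 / 2 - c) ≤ (N : ℝ) ^ (1 / 2 - c) :=
      Real.rpow_le_rpow (by linarith) hMNr (by linarith)
    have h10 : 0 ≤ ∑ n ∈ Icc M (2 * M), ‖b n‖ ^ 2 := sum_nonneg fun _ _ => by positivity
    have h11 : 0 ≤ C := by linarith
    gcongr

end Pool.Agent.J6H80.ML
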