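import Pool.Agent.J6H80.ML.Root
import Pool.Agent.N542.PP.Van

/-!
Sums of `p(d)^{it}` over short intervals of integers.
-/

set_option autoImplicit false

namespace Pool.Agent.J6H80.ML

open Polynomial Finset
open Pool.Agent.TH915.PW (Hy)
open Pool.Agent.N542.PP (vdc_high)
open Pool.Agent.H469R2.NK (e norm_e conj_e norm_sum_neg)

/-- large phases, the derivative of order `Q + 1` monotone -/
theorem vdc2 (Q : ℕ) (hQ : 1 ≤ Q) (c₁ c₂ : ℝ) (hc₁ : 0 < c₁) (hc₂ : c₁ ≤ c₂) :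
    ∃ η : ℝ, 0 < η ∧ η ≤ 1 ∧ ∃ C : ℝ, 1 ≤ C ∧ ∀ (N L : ℕ) (u F : ℝ) (φ : ℕ → ℝ → ℝ),
      1 ≤ N → L ≤ N → (N : ℝ) ^ (1 / 2 : ℝ) ≤ F → F ≤ (N : ℝ) ^ Q →
      (∀ m ≤ Q + 1, ∀ t ∈ Set.Icc u (u + L), HasDerivAt (φ m) (φ (m + 1) t) t) →
      (∀ t ∈ Set.Icc u (u + L), c₁ * F / (N : ℝ) ^ (Q + 1) ≤ φ (Q + 1) t) →
      (∀ t ∈ Set.Icc u (u + L), φ (Q + 1) t ≤ c₂ * F / (N : ℝ) ^ (Q + 1)) →
      ((∀ t ∈ Set.Icc u (u + L), 0 ≤ φ (Q + 2) t) ∨ (∀ t ∈ Set.Icc u (u + L), φ (Q + 2) t ≤ 0)) →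
      ‖∑ n ∈ range L, e (φ 0 (u + n))‖ ≤ C * (N : ℝ) ^ (1 - η) := by
  obtain ⟨η, hη, hη1, C, hC, h⟩ := vdc_high Q hQ c₁ c₂ hc₁ hc₂
  refine ⟨η, hη, hη1, C + 1, by linarith, ?_⟩
  intro N L u F φ hN hL hF1 hF2 hder hlo hhi hs
  have hN' : (1 : ℝ) ≤ N := by exact_mod_cast hN
  have hone : (1 : ℝ) ≤ (N : ℝ) ^ (1 - η) := Real.one_le_rpow hN' (by linarith)
  rcases hs with hs | hs
  swap
  · have := h N L u F φ hN hL hF1 hF2 ⟨hder, hlo, hhi, hs⟩
    linarith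
  rcases Nat.eq_zero_or_pos L with rfl | hLpos
  · simp only [range_zero, sum_empty, norm_zero]
    have : 0 ≤ C + 1 := by linarith
    positivity
  obtain ⟨K, rfl⟩ : ∃ K, L = K + 1 := ⟨L - 1, by omega⟩
  -- drop the term `n = 0`, reverse the order of the other ones
  rw [sum_range_succ', ← sum_range_reflect]
  set v : ℝ := -(u + K) with hv
  set ψ : ℕ → ℝ → ℝ := fun m t => (-1) ^ (m + Q + 1) * φ m (-t) with hψ
  have hmem : ∀ t ∈ Set.Icc v (v + K), -t ∈ Set.Icc u (u + ((K + 1 : ℕ) : ℝ)) := by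
    intro t ht
    push_cast
    constructor
    · linarith [ht.2]
    · linarith [ht.1]
  have hsgn1 : ((-1 : ℝ)) ^ (Q + 1 + Q + 1) = 1 := by
    rw [show Q + 1 + Q + 1 = 2 * (Q + 1) by ring, pow_mul]
    norm_num
  have hsgn2 : ((-1 : ℝ)) ^ (Q + 2 + Q + 1) = -1 := by
    rw [show Q + 2 + Q + 1 = 2 * (Q + 1) + 1 by ring, pow_succ, pow_mul]
    norm_num
  have hH : Hy Q v (v + K) (c₁ * F / (N : ℝ) ^ (Q + 1)) (c₂ * F / (N : ℝ) ^ (Q + 1)) ψ := by
    constructor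
    · intro m hm t ht
      have h4 := (hder m hm (-t) (hmem t ht)).comp t (hasDerivAt_neg t)
      have h5 := h4.const_mul ((-1 : ℝ) ^ (m + Q + 1))
      simp only [hψ]
      refine h5.congr_deriv ?_
      rw [show m + 1 + Q + 1 = (m + Q + 1) + 1 by ring, pow_succ ((-1 : ℝ)) (m + Q + 1)]
      ring
    · intro t ht
      have := hlo (-t) (hmem t ht)
      simp only [hψ]
      rw [hsgn1, one_mul]
      exact this
    · intro t ht
      have := hhi (-t) (hmem t ht)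
      simp only [hψ]
      rw [hsgn1, one_mul]
      exact this
    · intro t ht
      have := hs (-t) (hmem t ht)
      simp only [hψ]
      rw [hsgn2]
      linarith
  have h4 := h N K v F ψ hN (by omega) hF1 hF2 hH
  have h5 : ‖∑ j ∈ range K, e (φ 0 (u + ((K - 1 - j + 1 : ℕ) : ℝ)))‖ = ‖∑ n ∈ range K, e (ψ 0 (v + n))‖ := by
    have h7 : ∀ n ∈ range K, φ 0 (u + ((K - 1 - n + 1 : ℕ) : ℝ)) = (-1) ^ (Q + 1) * ψ 0 (v + n) := by
      intro n hn
      rw [mem_range] at hn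
      have h6 : ((K - 1 - n + 1 : ℕ) : ℝ) = K - n := by
        rw [show K - 1 - n + 1 = K - n by omega, Nat.cast_sub hn.le]
      simp only [hψ]
      rw [h6, show -(v + (n : ℝ)) = u + (K - n) by rw [hv]; ring, ← mul_assoc, ← pow_add,
        show Q + 1 + (0 + Q + 1) = 2 * (Q + 1) by ring, pow_mul]
      norm_num
    rw [sum_congr rfl (fun n hn => by rw [h7 n hn])]
    rcases Nat.even_or_odd (Q + 1) with h8 | h8
    · rw [h8.neg_one_pow]
      simp only [one_mul]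
    · rw [h8.neg_one_pow]
      simp only [neg_one_mul]
      rw [← RCLike.norm_conj, map_sum]
      congr 1
      apply sum_congr rfl
      intro n _
      rw [conj_e, neg_neg]
  refine (norm_add_le _ _).trans ?_
  rw [h5, norm_e]
  linarith

/-- the phase -/
noncomputable def ph0 (p : ℝ[X]) (τ : ℝ) : ℕ → ℝ → ℝ
  | 0 => fun x => τ * Real.log (p.eval x)
  | m + 1 => fun x => τ * dl p m x

theorem ph0_der (p : ℝ[X]) (τ : ℝ) (m : ℕ) (x : ℝ) (hx : p.eval x ≠ 0) :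
    HasDerivAt (ph0 p τ m) (ph0 p τ (m + 1) x) x := by
  cases m with
  | zero => exact (hasDerivAt_log p x hx).const_mul τ
  | succ m => exact (hasDerivAt_dl p m x hx).const_mul τ

theorem e_norm_abs (f : ℕ → ℝ) (t : ℝ) (q : ℕ) (s : Finset ℕ) :
    ‖∑ d ∈ s, e (t / (2 * Real.pi) * f d)‖ = ‖∑ d ∈ s, e ((-1) ^ q * |t| / (2 * Real.pi) * f d)‖ := by
  have key : ∀ a : ℝ, ‖∑ d ∈ s, e (-(a * f d))‖ = ‖∑ d ∈ s, e (a * f d)‖ := by
    intro a
    rw [← RCLike.norm_conj, map_sum]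
    congr 1
    apply sum_congr rfl
    intro n _
    rw [conj_e, neg_neg]
  have h1 : ∀ a b : ℝ, (a = b ∨ a = -b) → ‖∑ d ∈ s, e (a * f d)‖ = ‖∑ d ∈ s, e (b * f d)‖ := by
    intro a b hab
    rcases hab with rfl | rfl
    · rfl
    · simp only [neg_mul]
      exact key b
  apply h1
  rcases abs_choice t with h | h <;> rcases Nat.even_or_odd q with h2 | h2 <;>
    rw [h, h2.neg_one_pow] <;> ring_nf <;> simp

/-- one piece -/
theorem piece (K : ℕ) (hK : 1 ≤ K) (B : ℝ) (hB : 1 ≤ B) (q : ℕ) (hq : 1 ≤ q) :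
    ∃ η : ℝ, 0 < η ∧ η ≤ 1 ∧ ∃ C : ℝ, 1 ≤ C ∧ ∀ (p : ℝ[X]) (n : ℕ) (z : Fin n → ℂ), Fac p z → n ≤ K →
      ∀ (N i j : ℕ) (t : ℝ), 1 ≤ N → i ≤ j → j ≤ i + N →
      (∀ x ∈ Set.Icc (i : ℝ) j, 0 < p.eval x) →
      (∀ x ∈ Set.Icc (i : ℝ) j, ((B * N) ^ (q + 1))⁻¹ / 3 ≤ (∑ a, (((x : ℂ) - z a) ^ (q + 1))⁻¹).re) →
      (∀ x ∈ Set.Icc (i : ℝ) j, ∀ a, (N : ℝ) / B ≤ ‖(x : ℂ) - z a‖) →
      ((∀ x ∈ Set.Icc (i : ℝ) j, 0 ≤ (G p (q + 1)).eval x) ∨
        (∀ x ∈ Set.Icc (i : ℝ) j, (G p (q + 1)).eval x ≤ 0)) →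
      (N : ℝ) ^ (1 / 2 : ℝ) ≤ |t| → |t| ≤ (N : ℝ) ^ q →
      ‖∑ d ∈ Ico i j, e (t / (2 * Real.pi) * Real.log (p.eval (d : ℝ)))‖ ≤ C * (N : ℝ) ^ (1 - η) := by
  have hpi := Real.pi_pos
  have hK' : (1 : ℝ) ≤ K := by exact_mod_cast hK
  have hB0 : 0 < B := by linarith
  have hqf : (0 : ℝ) < q.factorial := by exact_mod_cast Nat.factorial_pos q
  have hBq : (1 : ℝ) ≤ B ^ (q + 1) := one_le_pow₀ hB
  obtain ⟨η, hη, hη1, C, hC, h⟩ := vdc2 q hq (q.factorial / (6 * Real.pi * B ^ (q + 1)))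
    (q.factorial * K * B ^ (q + 1) / (2 * Real.pi)) (by positivity) (by
      rw [div_le_div_iff₀ (by positivity) (by positivity)]
      have h1 : (1 : ℝ) ≤ K * B ^ (q + 1) * B ^ (q + 1) := by
        have := one_le_mul_of_one_le_of_one_le (one_le_mul_of_one_le_of_one_le hK' hBq) hBq
        exact this
      have h2 : (q.factorial : ℝ) * K * B ^ (q + 1) * (6 * Real.pi * B ^ (q + 1)) =
          6 * Real.pi * q.factorial * (K * B ^ (q + 1) * B ^ (q + 1)) := by ring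
      rw [h2]
      have h3 : 0 < Real.pi * q.factorial := by positivity
      nlinarith)
  refine ⟨η, hη, hη1, C, hC, ?_⟩
  intro p n z hz hn N i j t hN hij hjN hpos hlow hfar hsign ht1 ht2
  have hN0 : (0 : ℝ) < N := by exact_mod_cast hN
  rw [e_norm_abs _ t q]
  set τ : ℝ := (-1) ^ q * |t| / (2 * Real.pi) with hτ
  have hsum : ∑ d ∈ Ico i j, e (τ * Real.log (p.eval (d : ℝ))) =
      ∑ d ∈ range (j - i), e (ph0 p τ 0 ((i : ℝ) + d)) := by
    rw [sum_Ico_eq_sum_range]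
    apply sum_congr rfl
    intro d _
    simp only [ph0]
    push_cast
    rfl
  rw [hsum]
  have hI : (i : ℝ) + ((j - i : ℕ) : ℝ) = j := by
    rw [Nat.cast_sub hij]; ring
  -- the values of the derivative
  have hval : ∀ x ∈ Set.Icc (i : ℝ) j, ph0 p τ (q + 1) x =
      |t| / (2 * Real.pi) * q.factorial * (∑ a, (((x : ℂ) - z a) ^ (q + 1))⁻¹).re := by
    intro x hx
    have h1 := dl_eq hz q x (hpos x hx).ne'
    have h2 : dl p q x = (-1) ^ q * q.factorial * (∑ a, (((x : ℂ) - z a) ^ (q + 1))⁻¹).re := by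
      have h3 := congrArg Complex.re h1
      rw [Complex.ofReal_re] at h3
      rw [h3]
      have h4 : ((-1 : ℂ)) ^ q * (q.factorial : ℂ) = (((-1 : ℝ) ^ q * q.factorial : ℝ) : ℂ) := by push_cast; rfl
      rw [h4, Complex.re_ofReal_mul]
    simp only [ph0]
    rw [h2, hτ]
    have h3 : ((-1 : ℝ)) ^ q * (-1) ^ q = 1 := by
      rw [← mul_pow]; norm_num
    calc (-1 : ℝ) ^ q * |t| / (2 * Real.pi) * ((-1) ^ q * q.factorial * (∑ a, (((x : ℂ) - z a) ^ (q + 1))⁻¹).re)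
        = ((-1 : ℝ) ^ q * (-1) ^ q) * (|t| / (2 * Real.pi) * q.factorial *
          (∑ a, (((x : ℂ) - z a) ^ (q + 1))⁻¹).re) := by ring
      _ = _ := by rw [h3, one_mul]
  apply h N (j - i) i |t| (ph0 p τ) hN (by omega) ht1 ht2
  · intro m _ x hx
    rw [hI] at hx
    exact ph0_der p τ m x (hpos x hx).ne'
  · intro x hx
    rw [hI] at hx
    rw [hval x hx]
    have h1 := hlow x hx
    calc q.factorial / (6 * Real.pi * B ^ (q + 1)) * |t| / (N : ℝ) ^ (q + 1)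
        = |t| / (2 * Real.pi) * q.factorial * (((B * N) ^ (q + 1))⁻¹ / 3) := by
          rw [mul_pow]
          field_simp
          ring
      _ ≤ _ := by gcongr
  · intro x hx
    rw [hI] at hx
    rw [hval x hx]
    have h1 : (∑ a, (((x : ℂ) - z a) ^ (q + 1))⁻¹).re ≤ K * (B ^ (q + 1) / (N : ℝ) ^ (q + 1)) := by
      refine (Complex.re_le_norm _).trans ((norm_sum_le _ _).trans ?_)
      calc ∑ a, ‖(((x : ℂ) - z a) ^ (q + 1))⁻¹‖ ≤ ∑ a : Fin n, (B ^ (q + 1) / (N : ℝ) ^ (q + 1)) := by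
            apply sum_le_sum
            intro a _
            rw [norm_inv, norm_pow, ← div_pow, ← inv_pow]
            apply pow_le_pow_left₀ (by positivity)
            have h2 := hfar x hx a
            rw [inv_le_comm₀ (lt_of_lt_of_le (by positivity) h2) (by positivity), inv_div]
            exact h2
        _ = n * (B ^ (q + 1) / (N : ℝ) ^ (q + 1)) := by
            rw [sum_const, card_univ, Fintype.card_fin, nsmul_eq_mul]
        _ ≤ _ := by
            have : (n : ℝ) ≤ K := by exact_mod_cast hn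
            gcongr
    calc |t| / (2 * Real.pi) * q.factorial * (∑ a, (((x : ℂ) - z a) ^ (q + 1))⁻¹).re
        ≤ |t| / (2 * Real.pi) * q.factorial * (K * (B ^ (q + 1) / (N : ℝ) ^ (q + 1))) := by gcongr
      _ = _ := by ring
  · rw [hI]
    have hform : ∀ x ∈ Set.Icc (i : ℝ) j, ph0 p τ (q + 2) x =
        (-1) ^ q * (|t| / (2 * Real.pi) / p.eval x ^ (q + 2) * (G p (q + 1)).eval x) := by
      intro x hx
      simp only [ph0, dl]
      rw [hτ]
      ring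
    have hnn : ∀ x ∈ Set.Icc (i : ℝ) j, 0 ≤ |t| / (2 * Real.pi) / p.eval x ^ (q + 2) := by
      intro x hx
      have := hpos x hx
      positivity
    rcases Nat.even_or_odd q with h8 | h8 <;> rcases hsign with h9 | h9
    · left
      intro x hx
      rw [hform x hx, h8.neg_one_pow, one_mul]
      exact mul_nonneg (hnn x hx) (h9 x hx)
    · right
      intro x hx
      rw [hform x hx, h8.neg_one_pow, one_mul]
      exact mul_nonpos_of_nonneg_of_nonpos (hnn x hx) (h9 x hx)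
    · right
      intro x hx
      rw [hform x hx, h8.neg_one_pow, neg_one_mul]
      have := mul_nonneg (hnn x hx) (h9 x hx)
      linarith
    · left
      intro x hx
      rw [hform x hx, h8.neg_one_pow, neg_one_mul]
      have := mul_nonpos_of_nonneg_of_nonpos (hnn x hx) (h9 x hx)
      linarith

end Pool.Agent.J6H80.ML
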