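import Pool.Agent.J6H80.ML.Der
import Pool.Agent.J6H80.ML.Dir

/-!
The complex roots of a polynomial which varies by a factor two at most on an interval of integers keep away from the
interval, and one of them is not far if the polynomial is not nearly constant.
-/

set_option autoImplicit false

namespace Pool.Agent.J6H80.ML

open Polynomial Finset

/-- interpolation -/
theorem disc_bound (K : ℕ) (hK : 1 ≤ K) : ∃ C : ℝ, 1 ≤ C ∧ ∀ (p : ℝ[X]) (L : ℕ) (M : ℝ), p.natDegree ≤ K →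
    2 * K + 1 ≤ L → 0 ≤ M → (∀ d < L, |p.eval (d : ℝ)| ≤ M) → ∀ w : ℂ, ‖w‖ ≤ 2 * L →
      ‖(p.map (algebraMap ℝ ℂ)).eval w‖ ≤ C * M := by
  classical
  have hK' : (1 : ℝ) ≤ K := by exact_mod_cast hK
  refine ⟨(K + 1) * (6 * K) ^ K, ?_, ?_⟩
  · have : (1 : ℝ) ≤ (6 * K) ^ K := one_le_pow₀ (by linarith)
    nlinarith
  intro p L M hp hL hM hd w hw
  set h : ℕ := (L - 1) / K with hh
  have hhK : h * K ≤ L - 1 := Nat.div_mul_le_self _ _
  have hh2 : 2 ≤ h := by
    rw [hh, Nat.le_div_iff_mul_le (by omega)]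
    omega
  have hlt : L - 1 < h * K + K := Nat.lt_div_mul_add (by omega)
  have hLh : L ≤ 2 * K * h := by
    have h1 : 2 * K ≤ K * h := by nlinarith
    have h2 : h * K = K * h := Nat.mul_comm _ _
    have h3 : 2 * K * h = K * h + K * h := by ring
    omega
  have hh0 : (0 : ℝ) < h := by
    have : (2 : ℝ) ≤ h := by exact_mod_cast hh2
    linarith
  have hLr : (L : ℝ) ≤ 2 * K * h := by exact_mod_cast hLh
  set P : ℂ[X] := p.map (algebraMap ℝ ℂ) with hP
  set v : ℕ → ℂ := fun i => ((i * h : ℕ) : ℂ) with hv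
  set s : Finset ℕ := range (K + 1) with hs
  have hinj : Set.InjOn v s := by
    intro i _ j _ hij
    simp only [hv] at hij
    have h1 : i * h = j * h := by exact_mod_cast hij
    exact Nat.eq_of_mul_eq_mul_right (by omega) h1
  have hdeg : P.degree < s.card := by
    rw [hs, card_range, hP]
    refine lt_of_le_of_lt degree_le_natDegree ?_
    rw [natDegree_map]
    exact_mod_cast Nat.lt_succ_of_le hp
  have hint := Lagrange.eq_interpolate hinj hdeg
  rw [hint, Lagrange.interpolate_apply, eval_finset_sum]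
  have hterm : ∀ i ∈ s, ‖eval w (C (eval (v i) P) * Lagrange.basis s v i)‖ ≤ M * (6 * K) ^ K := by
    intro i hi
    rw [hs, mem_range] at hi
    have hih : i * h < L := by
      have : i * h ≤ K * h := Nat.mul_le_mul_right _ (by omega)
      have h2 : h * K = K * h := Nat.mul_comm _ _
      omega
    rw [eval_mul, eval_C, norm_mul]
    apply mul_le_mul _ _ (norm_nonneg _) hM
    · have h1 : eval (v i) P = ((p.eval (((i * h : ℕ) : ℝ)) : ℝ) : ℂ) := by
        have := eval_real p (((i * h : ℕ) : ℝ))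
        rw [hP]
        simp only [hv]
        rw [← this]
        push_cast
        rfl
      rw [h1, Complex.norm_real, Real.norm_eq_abs]
      exact hd _ hih
    · unfold Lagrange.basis
      rw [eval_prod, norm_prod]
      have hcard : (s.erase i).card = K := by
        rw [card_erase_of_mem (by rw [hs, mem_range]; exact hi), hs, card_range]
        rfl
      have h1 : ∀ j ∈ s.erase i, ‖eval w (Lagrange.basisDivisor (v i) (v j))‖ ≤ 6 * K := by
        intro j hj
        rw [mem_erase, hs, mem_range] at hj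
        unfold Lagrange.basisDivisor
        rw [eval_mul, eval_C, eval_sub, eval_X, eval_C, norm_mul, norm_inv]
        have hjh : j * h < L := by
          have : j * h ≤ K * h := Nat.mul_le_mul_right _ (by omega)
          have h2 : h * K = K * h := Nat.mul_comm _ _
          omega
        have h2 : (h : ℝ) ≤ ‖v i - v j‖ := by
          have e1 : v i - v j = (((((i : ℤ) - j : ℤ) : ℝ) * (h : ℝ) : ℝ) : ℂ) := by
            simp only [hv]
            push_cast
            ring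
          rw [e1, Complex.norm_real, Real.norm_eq_abs, abs_mul, abs_of_pos hh0]
          have h3 : (1 : ℤ) ≤ |(i : ℤ) - j| := Int.one_le_abs (by
            intro h4
            apply hj.1
            omega)
          have h4 : (1 : ℝ) ≤ |(((i : ℤ) - j : ℤ) : ℝ)| := by exact_mod_cast h3
          nlinarith
        have h3 : ‖w - v j‖ ≤ 3 * L := by
          have h4 : ‖v j‖ ≤ L := by
            simp only [hv]
            rw [Complex.norm_natCast]
            exact_mod_cast hjh.le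
          refine (norm_sub_le _ _).trans ?_
          linarith
        rw [inv_mul_eq_div, div_le_iff₀ (by linarith)]
        calc ‖w - v j‖ ≤ 3 * L := h3
          _ ≤ 3 * (2 * K * h) := by gcongr
          _ = 6 * K * h := by ring
          _ ≤ 6 * K * ‖v i - v j‖ := by gcongr
      calc ∏ j ∈ s.erase i, ‖eval w (Lagrange.basisDivisor (v i) (v j))‖ ≤ ∏ j ∈ s.erase i, (6 * (K : ℝ)) :=
            prod_le_prod (fun _ _ => norm_nonneg _) h1
        _ = (6 * K) ^ K := by rw [prod_const, hcard]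
  refine (norm_sum_le _ _).trans ((sum_le_sum hterm).trans (le_of_eq ?_))
  rw [sum_const, hs, card_range, nsmul_eq_mul]
  push_cast
  ring

/-- no roots near the interval -/
theorem no_root (K : ℕ) (hK : 1 ≤ K) : ∃ δ : ℝ, 0 < δ ∧ δ ≤ 1 ∧ ∀ (p : ℝ[X]) (L : ℕ) (M : ℝ), p.natDegree ≤ K →
    2 * K + 1 ≤ L → 1 ≤ δ * L → 0 < M → (∀ d < L, M ≤ p.eval (d : ℝ) ∧ p.eval (d : ℝ) ≤ 2 * M) →
      ∀ w : ℂ, (p.map (algebraMap ℝ ℂ)).eval w = 0 → ∀ x : ℝ, 0 ≤ x → x ≤ L → δ * L ≤ ‖(x : ℂ) - w‖ := by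
  obtain ⟨C, hC, hdisc⟩ := disc_bound K hK
  refine ⟨1 / (2 * (2 * C + 3)), by positivity, ?_, ?_⟩
  · rw [div_le_one (by positivity)]; linarith
  intro p L M hp hL hδL hM hd w hw x hx0 hxL
  have hL0 : (0 : ℝ) < L := by
    have : 0 < L := by omega
    exact_mod_cast this
  set P : ℂ[X] := p.map (algebraMap ℝ ℂ) with hP
  have hbound := hdisc p L (2 * M) hp hL (by linarith) (by
    intro d hdL
    have := hd d hdL
    rw [abs_of_nonneg (by linarith)]
    exact this.2)
  -- the integer points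
  have hint : ∀ d < L, L / (2 * C + 3) ≤ ‖(d : ℂ) - w‖ := by
    intro d hdL
    by_contra hcon
    rw [not_le] at hcon
    have hdL' : (d : ℝ) ≤ L := by exact_mod_cast hdL.le
    have hlt : ‖(d : ℂ) - w‖ < L := by
      refine lt_of_lt_of_le hcon ?_
      rw [div_le_iff₀ (by linarith)]
      nlinarith
    have hPd : eval (d : ℂ) P = ((p.eval (d : ℝ) : ℝ) : ℂ) := by
      have := eval_real p (d : ℝ)
      rw [hP, ← this]
      push_cast
      rfl
    have hPd2 : ‖eval (d : ℂ) P‖ ≤ 2 * M := by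
      rw [hPd, Complex.norm_real, Real.norm_eq_abs, abs_of_nonneg (by linarith [(hd d hdL).1])]
      exact (hd d hdL).2
    have hPd3 : M ≤ ‖eval (d : ℂ) P‖ := by
      rw [hPd, Complex.norm_real, Real.norm_eq_abs, abs_of_nonneg (by linarith [(hd d hdL).1])]
      exact (hd d hdL).1
    have hmaps : Set.MapsTo (fun y => eval y P) (Metric.ball (d : ℂ) L) (Metric.closedBall (eval (d : ℂ) P) ((2 * C + 3) * M)) := by
      intro y hy
      rw [Metric.mem_ball, dist_eq_norm] at hy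
      rw [Metric.mem_closedBall, dist_eq_norm]
      have h1 : ‖y‖ ≤ 2 * L := by
        have e1 : y = (y - d) + d := by ring
        rw [e1]
        refine (norm_add_le _ _).trans ?_
        rw [Complex.norm_natCast]
        linarith
      have h2 := hbound y h1
      have h3 := norm_sub_le (eval y P) (eval (d : ℂ) P)
      simp only
      nlinarith
    have hsch := Complex.dist_le_div_mul_dist_of_mapsTo_ball (f := fun y => eval y P) (c := (d : ℂ)) (z := w)
      P.differentiable.differentiableOn hmaps (by rw [Metric.mem_ball, dist_eq_norm, norm_sub_rev]; exact hlt)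
    rw [hw, dist_eq_norm, zero_sub, norm_neg, dist_eq_norm, norm_sub_rev w] at hsch
    have h4 : (2 * C + 3) * M / L * ‖(d : ℂ) - w‖ < (2 * C + 3) * M / L * (L / (2 * C + 3)) := by
      apply mul_lt_mul_of_pos_left hcon
      positivity
    have h5 : (2 * C + 3) * M / L * (L / (2 * C + 3)) = M := by field_simp
    linarith
  -- the nearest integer
  set d : ℕ := min ⌊x⌋₊ (L - 1) with hdd
  have hdL : d < L := by omega
  have hxd : |x - d| ≤ 1 := by
    have h1 : (⌊x⌋₊ : ℝ) ≤ x := Nat.floor_le hx0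
    have h2 : x < ⌊x⌋₊ + 1 := Nat.lt_floor_add_one x
    rcases le_total ⌊x⌋₊ (L - 1) with h3 | h3
    · rw [hdd, min_eq_left h3, abs_le]
      constructor <;> linarith
    · rw [hdd, min_eq_right h3]
      have h4 : ((L - 1 : ℕ) : ℝ) = L - 1 := by
        rw [Nat.cast_sub (by omega)]
        simp
      have h5 : ((L - 1 : ℕ) : ℝ) ≤ (⌊x⌋₊ : ℝ) := by exact_mod_cast h3
      rw [h4] at h5 ⊢
      rw [abs_le]
      constructor <;> linarith
  have h1 := hint d hdL
  have h2 : ‖(d : ℂ) - w‖ ≤ 1 + ‖(x : ℂ) - w‖ := by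
    have e1 : (d : ℂ) - w = (((d : ℝ) - x : ℝ) : ℂ) + ((x : ℂ) - w) := by
      push_cast
      ring
    rw [e1]
    refine (norm_add_le _ _).trans ?_
    rw [Complex.norm_real, Real.norm_eq_abs, abs_sub_comm]
    linarith
  have h3 : 1 / (2 * (2 * C + 3)) * (L : ℝ) = L / (2 * C + 3) / 2 := by
    field_simp
  rw [h3] at hδL ⊢
  linarith

/-- a root which is not far -/
theorem root_upper (p : ℝ[X]) {n : ℕ} (z : Fin n → ℂ) (hz : Fac p z) (L i j : ℕ) (hi : i < L) (hj : j < L)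
    (ε r : ℝ) (hε : 0 < ε) (hε1 : ε ≤ 1) (hr : 0 < r) (hp : 0 < p.eval (i : ℝ))
    (hv : (1 + ε) * p.eval (i : ℝ) ≤ p.eval (j : ℝ)) (hrz : ∀ a, r ≤ ‖(i : ℂ) - z a‖) : r ≤ 2 * n * L / ε := by
  have hi' : (i : ℝ) < L := by exact_mod_cast hi
  have hj' : (j : ℝ) < L := by exact_mod_cast hj
  have hi0 : (0 : ℝ) ≤ i := Nat.cast_nonneg i
  have hj0 : (0 : ℝ) ≤ j := Nat.cast_nonneg j
  have hL0 : (0 : ℝ) < L := by linarith
  have hn : ∀ k : ℕ, p.eval (k : ℝ) ≤ |p.leadingCoeff| * ∏ a, ‖(k : ℂ) - z a‖ := by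
    intro k
    have h1 := eval_eq hz (((k : ℝ) : ℝ) : ℂ)
    rw [eval_real] at h1
    have h2 : |p.eval (k : ℝ)| = |p.leadingCoeff| * ∏ a, ‖(k : ℂ) - z a‖ := by
      rw [← Real.norm_eq_abs, ← Complex.norm_real, h1, norm_mul, Complex.norm_real, norm_prod, Real.norm_eq_abs]
      simp
    rw [← h2]
    exact le_abs_self _
  have hn2 : p.eval (i : ℝ) = |p.leadingCoeff| * ∏ a, ‖(i : ℂ) - z a‖ := by
    have h1 := eval_eq hz (((i : ℝ) : ℝ) : ℂ)
    rw [eval_real] at h1
    rw [← abs_of_pos hp, ← Real.norm_eq_abs, ← Complex.norm_real, h1, norm_mul, Complex.norm_real, norm_prod,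
      Real.norm_eq_abs]
    simp
  have h1 : ∏ a, ‖(j : ℂ) - z a‖ ≤ (1 + L / r) ^ n * ∏ a, ‖(i : ℂ) - z a‖ := by
    calc ∏ a, ‖(j : ℂ) - z a‖ ≤ ∏ a, ((1 + L / r) * ‖(i : ℂ) - z a‖) := by
          apply prod_le_prod (fun _ _ => norm_nonneg _)
          intro a _
          have h2 : ‖(j : ℂ) - z a‖ ≤ L + ‖(i : ℂ) - z a‖ := by
            have e1 : (j : ℂ) - z a = (((j : ℝ) - i : ℝ) : ℂ) + ((i : ℂ) - z a) := by
              push_cast
              ring
            rw [e1]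
            refine (norm_add_le _ _).trans ?_
            rw [Complex.norm_real, Real.norm_eq_abs]
            have : |(j : ℝ) - i| ≤ L := by
              rw [abs_le]
              constructor <;> linarith
            linarith
          have h3 : (L : ℝ) ≤ L / r * ‖(i : ℂ) - z a‖ := by
            rw [div_mul_eq_mul_div, le_div_iff₀ hr]
            have := hrz a
            gcongr
          linarith
      _ = _ := by rw [prod_mul_distrib, prod_const, card_univ, Fintype.card_fin]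
  have h2 : (1 + ε) * p.eval (i : ℝ) ≤ (1 + L / r) ^ n * p.eval (i : ℝ) := by
    calc (1 + ε) * p.eval (i : ℝ) ≤ p.eval (j : ℝ) := hv
      _ ≤ |p.leadingCoeff| * ∏ a, ‖(j : ℂ) - z a‖ := hn j
      _ ≤ |p.leadingCoeff| * ((1 + L / r) ^ n * ∏ a, ‖(i : ℂ) - z a‖) := by gcongr
      _ = (1 + L / r) ^ n * p.eval (i : ℝ) := by rw [hn2]; ring
  have h3 : 1 + ε ≤ (1 + L / r) ^ n := le_of_mul_le_mul_right h2 hp
  have h4 : (1 + L / r) ^ n ≤ Real.exp (n * (L / r)) := by
    rw [Real.exp_nat_mul]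
    apply pow_le_pow_left₀ (by positivity)
    have := Real.add_one_le_exp ((L : ℝ) / r)
    linarith
  by_contra hcon
  rw [not_le, div_lt_iff₀ hε] at hcon
  set y : ℝ := n * (L / r) with hy
  have hy0 : 0 ≤ y := by rw [hy]; positivity
  have hy1 : y < ε / 2 := by
    rw [hy, ← mul_div_assoc, div_lt_iff₀ hr]
    linarith
  have h5 : Real.exp y ≤ 1 + 2 * y := by
    have h6 := Real.add_one_le_exp (-y)
    have h7 : Real.exp y * Real.exp (-y) = 1 := by rw [← Real.exp_add]; simp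
    have h8 := Real.exp_pos y
    nlinarith
  linarith

/-- the geometry of an arc -/
theorem geom (K : ℕ) (hK : 1 ≤ K) : ∃ B : ℝ, 1 ≤ B ∧ ∃ L0 : ℕ, 1 ≤ L0 ∧ ∀ (p : ℝ[X]) (z : Fin p.natDegree → ℂ)
    (L : ℕ) (M ε : ℝ), Fac p z → p.natDegree ≤ K → L0 ≤ L → 0 < M → 0 < ε → ε ≤ 1 →
    (∀ d < L, M ≤ p.eval (d : ℝ) ∧ p.eval (d : ℝ) ≤ 2 * M) →
    (∃ i < L, ∃ j < L, (1 + ε) * p.eval (i : ℝ) ≤ p.eval (j : ℝ)) →
    ∃ N : ℕ, 1 ≤ N ∧ (L : ℝ) ≤ B * N ∧ (N : ℝ) ≤ B * L / ε ∧ (∀ x : ℝ, 0 ≤ x → x ≤ L → 0 < p.eval x) ∧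
      (∀ x : ℝ, 0 ≤ x → x ≤ L → ∀ a, (N : ℝ) / B ≤ ‖(x : ℂ) - z a‖) ∧
      ∃ a, ∀ x : ℝ, 0 ≤ x → x ≤ L → ‖(x : ℂ) - z a‖ ≤ B * N := by
  obtain ⟨δ, hδ, hδ1, hno⟩ := no_root K hK
  have hK' : (1 : ℝ) ≤ K := by exact_mod_cast hK
  refine ⟨8 * K / δ, ?_, max (2 * K + 1) ⌈1 / δ⌉₊, by omega, ?_⟩
  · rw [le_div_iff₀ hδ]; linarith
  intro p z L M ε hz hp hL hM hε hε1 hd hv
  have hL1 : 2 * K + 1 ≤ L := (le_max_left _ _).trans hL
  have hL2 : 1 ≤ δ * L := by
    have h1 : ((⌈1 / δ⌉₊ : ℕ) : ℝ) ≤ L := by exact_mod_cast (le_max_right _ _).trans hL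
    have h2 := (Nat.le_ceil (1 / δ)).trans h1
    rw [div_le_iff₀ hδ] at h2
    linarith
  have hLpos : 0 < L := by omega
  have hL0 : (0 : ℝ) < L := by exact_mod_cast hLpos
  have hnr := hno p L M hp hL1 hL2 hM hd
  have hroot : ∀ a, (p.map (algebraMap ℝ ℂ)).eval (z a) = 0 := by
    intro a
    rw [eval_eq hz, prod_eq_zero (mem_univ a) (sub_self _), mul_zero]
  -- positivity
  have hne : ∀ x : ℝ, 0 ≤ x → x ≤ L → p.eval x ≠ 0 := by
    intro x h0 h1 h2
    have h3 := hnr (x : ℂ) (by rw [eval_real, h2]; simp) x h0 h1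
    rw [sub_self, norm_zero] at h3
    linarith
  have hpos : ∀ x : ℝ, 0 ≤ x → x ≤ L → 0 < p.eval x := by
    have hp0 := (hd 0 hLpos).1
    rw [Nat.cast_zero] at hp0
    rcases sign_const p 0 L (fun x h0 h1 => hne x h0.le h1.le) with h | h
    · intro x h0 h1
      exact lt_of_le_of_ne (h x ⟨h0, h1⟩) (hne x h0 h1).symm
    · have := h 0 ⟨le_rfl, hL0.le⟩
      linarith
  -- there is a root
  obtain ⟨i, hi, j, hj, hij⟩ := hv
  have hi0 : 0 < p.eval (i : ℝ) := by linarith [(hd i hi).1]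
  have hn1 : 1 ≤ p.natDegree := by
    by_contra h
    have h1 : p.natDegree = 0 := by omega
    rw [natDegree_eq_zero] at h1
    obtain ⟨c, rfl⟩ := h1
    simp only [eval_C] at hij hi0
    nlinarith
  haveI : Nonempty (Fin p.natDegree) := ⟨⟨0, hn1⟩⟩
  obtain ⟨a0, ha0⟩ := Finite.exists_min (fun a => ‖z a‖)
  set R : ℝ := ‖z a0‖ with hR
  have hRL : δ * L ≤ R := by
    have := hnr (z a0) (hroot a0) 0 le_rfl hL0.le
    simpa using this
  have hR1 : 1 ≤ R := hL2.trans hRL
  have hlow : ∀ x : ℝ, 0 ≤ x → x ≤ L → ∀ a, δ / 2 * R ≤ ‖(x : ℂ) - z a‖ := by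
    intro x h0 h1 a
    have h2 := hnr (z a) (hroot a) x h0 h1
    have h3 : ‖z a‖ ≤ x + ‖(x : ℂ) - z a‖ := by
      have e1 : z a = (x : ℂ) - ((x : ℂ) - z a) := by ring
      conv_lhs => rw [e1]
      refine (norm_sub_le _ _).trans ?_
      rw [Complex.norm_real, Real.norm_eq_abs, abs_of_nonneg h0]
    have h4 : R ≤ ‖z a‖ := ha0 a
    rcases le_or_gt (2 * (L : ℝ)) ‖z a‖ with h5 | h5
    · have h6 : ‖z a‖ / 2 ≤ ‖(x : ℂ) - z a‖ := by linarith
      nlinarith
    · have h6 : R / 2 ≤ L := by linarith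
      nlinarith
  refine ⟨⌈R⌉₊, ?_, ?_, ?_, hpos, ?_, a0, ?_⟩
  · exact Nat.one_le_ceil_iff.2 (by linarith)
  all_goals
    have hN1 : R ≤ (⌈R⌉₊ : ℝ) := Nat.le_ceil R
    have hN2 : (⌈R⌉₊ : ℝ) ≤ 2 * R := by
      have := Nat.ceil_lt_add_one (show 0 ≤ R by linarith)
      linarith
  · calc (L : ℝ) ≤ R / δ := by rw [le_div_iff₀ hδ]; linarith
      _ ≤ 8 * K / δ * R := by
          rw [div_mul_eq_mul_div]
          apply div_le_div_of_nonneg_right _ hδ.le
          nlinarith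
      _ ≤ _ := by gcongr
  · have h1 := root_upper p z hz L i j hi hj ε (δ / 2 * R) hε hε1 (by positivity) hi0 hij (by
      intro a
      have := hlow i (Nat.cast_nonneg i) (by exact_mod_cast hi.le) a
      simpa using this)
    have h2 : (p.natDegree : ℝ) ≤ K := by exact_mod_cast hp
    have h3 : 2 * (p.natDegree : ℝ) * L / ε ≤ 2 * K * L / ε := by gcongr
    have h4 : R ≤ 4 * K * L / (δ * ε) := by
      rw [le_div_iff₀ (by positivity)]
      have h5 := h1.trans h3
      rw [le_div_iff₀ hε] at h5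
      nlinarith
    calc (⌈R⌉₊ : ℝ) ≤ 2 * R := hN2
      _ ≤ 2 * (4 * K * L / (δ * ε)) := by gcongr
      _ = _ := by field_simp; ring
  · intro x h0 h1 a
    refine le_trans ?_ (hlow x h0 h1 a)
    rw [div_div_eq_mul_div, div_le_iff₀ (by positivity)]
    have h2 : 0 ≤ δ * R * (K - 1) := mul_nonneg (by positivity) (by linarith)
    have h3 : (⌈R⌉₊ : ℝ) * δ ≤ 2 * R * δ := mul_le_mul_of_nonneg_right hN2 hδ.le
    have h4 : 0 ≤ δ * R := by positivity
    nlinarith
  · intro x h0 h1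
    have h2 : ‖(x : ℂ) - z a0‖ ≤ x + R := by
      refine (norm_sub_le _ _).trans ?_
      rw [Complex.norm_real, Real.norm_eq_abs, abs_of_nonneg h0]
    have h3 : (L : ℝ) ≤ R / δ := by rw [le_div_iff₀ hδ]; linarith
    have h4 : R ≤ R / δ := by
      rw [le_div_iff₀ hδ]
      nlinarith
    calc ‖(x : ℂ) - z a0‖ ≤ R / δ + R / δ := by linarith
      _ ≤ 8 * K / δ * R := by
          rw [← add_div, div_mul_eq_mul_div]
          apply div_le_div_of_nonneg_right _ hδ.le
          nlinarith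
      _ ≤ _ := by gcongr

end Pool.Agent.J6H80.ML
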